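import Pool.Agent.MP_9ab903_nt.FinalDefs2

/-!
# The strong Birch and Swinnerton-Dyer conjecture over number fields: the `3`-part
-/

set_option autoImplicit false

open NumberField IsDedekindDomain

namespace SBSD3

variable {K : Type} [Field K] [NumberField K] (W : WeierstrassCurve K)

open Classical in
/-- The rank part of the conjecture for `W` (with rank 0) together with the `3`-part of the formula
for the leading coefficient (up to the sign):
`W` is an elliptic curve and `W(K)` is finite (so that its rank is 0 and its regulator is 1), the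
`L`-series extends to an entire function `L` whose order of vanishing at 1 is the rank of `W(K)`,
with `L(1) ≠ 0`, the Tate–Shafarevich group has no nonzero element of `3`-power order, and
`L(1) √|Δ(K)| |W(K)_tors|² / (Ω(W) ∏ c_v)` is a nonzero rational number whose `3`-adic valuation
is 0. -/
def ThreePartRankZero : Prop :=
  W.IsElliptic ∧ Finite W.toAffine.Point ∧
    ∃ L : ℂ → ℂ, SBSD2.IsEntireLSeries W L ∧
      analyticOrderAt L 1 = Module.finrank ℤ W.toAffine.Point ∧ L 1 ≠ 0 ∧
      (∀ (x : SBSD.Sha W) (k : ℕ), 3 ^ k • x = 0 → x = 0) ∧
      ∃ q : ℚ, q ≠ 0 ∧ padicValRat 3 q = 0 ∧ SBSD2.bsdQuotient W (L 1) = q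

end SBSD3
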