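import Mathlib

/-!
# The strong Birch and Swinnerton-Dyer conjecture over number fields: definitions

For an arbitrary Weierstrass curve `W` over an arbitrary number field `K` we define the quantities
which occur in the formula for the leading coefficient of the `L`-series: the periods at the
archimedean places, the Néron factors and Tamagawa numbers at the finite places, and the
Tate–Shafarevich group.  (The `L`-series itself, minimal models and their reduction, the group
`W(K)` and the discriminant of `K` are in Mathlib.)
-/

set_option autoImplicit false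

open NumberField IsDedekindDomain

namespace SBSD

/-! ## Archimedean periods -/

/-- The cubic `4 x³ + b₂ x² + 2 b₄ x + b₆`, which equals `(2 y + a₁ x + a₃)²` on the curve. -/
def cubic {R : Type*} [CommRing R] (W : WeierstrassCurve R) (x : R) : R :=
  4 * x ^ 3 + W.b₂ * x ^ 2 + 2 * W.b₄ * x + W.b₆

/-- The real period `∫_{W(ℝ)} |ω|` of the invariant differential `ω = dx / (2 y + a₁ x + a₃)`: above
each real `x` with `cubic W x > 0` there are two real points, at each of which
`|ω| = dx / √(cubic W x)`. -/
noncomputable def realPeriod (W : WeierstrassCurve ℝ) : ℝ :=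
  ∫ x in {x : ℝ | 0 < cubic W x}, 2 / √(cubic W x)

/-- The area `∫_{W(ℂ)} |ω ∧ ω̄|` of `W(ℂ)` for the invariant differential
`ω = dx / (2 y + a₁ x + a₃)`, where `|dz ∧ dz̄|` denotes the Lebesgue measure of the complex plane:
above almost every complex `x` there are two points, at each of which
`|ω ∧ ω̄| = |dx ∧ dx̄| / |cubic W x|`. -/
noncomputable def complexArea (W : WeierstrassCurve ℂ) : ℝ :=
  ∫ x : ℂ, 2 / ‖cubic W x‖

section Archimedean

variable {K : Type*} [Field K] [NumberField K] (W : WeierstrassCurve K)

open Classical in
/-- The archimedean part of `Ω(W)`: the factor of a real place is the real period, the factor of a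
complex place is twice the area. -/
noncomputable def archPeriod (v : InfinitePlace K) : ℝ :=
  if h : v.IsReal then realPeriod (W.map (InfinitePlace.embedding_of_isReal h))
  else 2 * complexArea (W.map v.embedding)

end Archimedean

/-! ## Tamagawa numbers -/

section Local

variable (R : Type*) [CommRing R] [IsDomain R] [IsDiscreteValuationRing R] {K : Type*} [Field K]
  [Algebra R K] [IsFractionRing R K]

/-- The points of nonsingular reduction of a minimal Weierstrass equation `W` over the fraction
field `K` of a discrete valuation ring `R`: the point at infinity, the points whose coordinates are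
not in `R` (they reduce to the point at infinity), and the points with coordinates in `R` whose
reduction is a nonsingular point of the reduced curve. -/
def NonsingularReduction (W : WeierstrassCurve K) [W.IsMinimal R] : W.toAffine.Point → Prop
  | .zero => True
  | .some x y _ => ∀ a b : R, algebraMap R K a = x → algebraMap R K b = y →
      (W.reduction R).toAffine.Nonsingular (IsLocalRing.residue R a) (IsLocalRing.residue R b)

open Classical in
/-- The Tamagawa number `[W(K) : W₀(K)]` of a Weierstrass curve over the fraction field `K` of a
discrete valuation ring `R`: the index of the subgroup of the points of nonsingular reduction of a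
minimal Weierstrass equation. (The set of these points is a subgroup; we use the subgroup generated
by it, and `0` stands for infinite index.) -/
noncomputable def tamagawa (W : WeierstrassCurve K) : ℕ :=
  (AddSubgroup.closure
    {P : (W.minimal R).toAffine.Point | NonsingularReduction R (W.minimal R) P}).index

end Local

section Finite

variable {K : Type*} [Field K] [NumberField K] (W : WeierstrassCurve K)

/-- The Tamagawa number `c_v` at the finite place `v`. -/
noncomputable def tam (v : HeightOneSpectrum (𝓞 K)) : ℕ :=
  tamagawa (v.adicCompletionIntegers K) (W.baseChange (v.adicCompletion K))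

/-- The factor `|ω / ω_v^min|_v` at the finite place `v`, with the normalised absolute value
`|x|_v = N(v)^(-v(x))`: the minimal Weierstrass equation at `v` is obtained by a change of variables
`(u, r, s, t)`, and its invariant differential is `u ω`. -/
noncomputable def neron (v : HeightOneSpectrum (𝓞 K)) : ℝ :=
  ‖(((W.baseChange (v.adicCompletion K)).exists_isMinimal
    (v.adicCompletionIntegers K)).choose.u : v.adicCompletion K)‖⁻¹

/-- The period `Ω(W)`. -/
noncomputable def period : ℝ :=
  (∏ v : InfinitePlace K, archPeriod W v) * ∏ᶠ v : HeightOneSpectrum (𝓞 K), neron W v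

end Finite

/-! ## The Tate–Shafarevich group -/

section Sha

open Classical WeierstrassCurve.Affine

variable {K : Type*} [Field K] (W : WeierstrassCurve K)

/-- The absolute Galois group of `K`. -/
abbrev AbsGal (K : Type*) [Field K] : Type _ := AlgebraicClosure K ≃ₐ[K] AlgebraicClosure K

/-- The points of `W` over an extension `L` of `K`. -/
abbrev Pts (L : Type*) [Field L] [Algebra K L] : Type _ := (W.baseChange L).toAffine.Point

/-- The continuous crossed homomorphisms (1-cocycles) `Gal(K̄/K) → W(K̄)`. -/
noncomputable def cocycles : AddSubgroup (AbsGal K → Pts W (AlgebraicClosure K)) where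
  carrier := {c | IsLocallyConstant c ∧
    ∀ σ τ : AbsGal K, c (σ * τ) = c σ + Point.map σ.toAlgHom (c τ)}
  zero_mem' := ⟨IsLocallyConstant.const _, fun σ τ => by simp⟩
  add_mem' := by
    rintro a b ⟨ha, ha'⟩ ⟨hb, hb'⟩
    refine ⟨ha.add hb, fun σ τ => ?_⟩
    simp only [Pi.add_apply, ha', hb', map_add]
    abel
  neg_mem' := by
    rintro a ⟨ha, ha'⟩
    refine ⟨ha.neg, fun σ τ => ?_⟩
    simp only [Pi.neg_apply, ha', map_neg]
    abel

/-- The principal crossed homomorphisms (1-coboundaries) `σ ↦ σ P - P`, `P ∈ W(K̄)`. -/
noncomputable def coboundaries : AddSubgroup (AbsGal K → Pts W (AlgebraicClosure K)) where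
  carrier := {c | ∃ P : Pts W (AlgebraicClosure K), ∀ σ : AbsGal K,
    c σ = Point.map σ.toAlgHom P - P}
  zero_mem' := ⟨0, fun σ => by simp⟩
  add_mem' := by
    rintro a b ⟨P, hP⟩ ⟨Q, hQ⟩
    refine ⟨P + Q, fun σ => ?_⟩
    simp only [Pi.add_apply, hP, hQ, map_add]
    abel
  neg_mem' := by
    rintro a ⟨P, hP⟩
    refine ⟨-P, fun σ => ?_⟩
    simp only [Pi.neg_apply, hP, map_neg]
    abel

/-- The crossed homomorphism `c : Gal(K̄/K) → W(K̄)` becomes principal over the extension `L` of
`K`: for every `K`-embedding `j : K̄ → L̄`, the crossed homomorphism `Gal(L̄/L) → W(L̄)` which sends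
`σ` to the image of `c τ` under `j`, where `τ` is the restriction of `σ` to `K̄`, is principal. -/
def TrivialOver (L : Type*) [Field L] [Algebra K L]
    (c : AbsGal K → Pts W (AlgebraicClosure K)) : Prop :=
  ∀ j : AlgebraicClosure K →ₐ[K] AlgebraicClosure L, ∃ Q : Pts W (AlgebraicClosure L),
    ∀ (σ : AbsGal L) (τ : AbsGal K), (∀ x, j (τ x) = σ (j x)) →
      Point.map j (c τ) = Point.map (σ.toAlgHom.restrictScalars K) Q - Q

end Sha

section Sha2

open Classical WeierstrassCurve.Affine

variable {K : Type*} [Field K] [NumberField K] (W : WeierstrassCurve K)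

/-- The crossed homomorphisms whose class in `H¹(K, W)` is in the kernel of
`H¹(K, W) → ∏_v H¹(K_v, W)`; the product is over all places `v` of `K`, finite and infinite. -/
noncomputable def locTrivial : AddSubgroup (AbsGal K → Pts W (AlgebraicClosure K)) where
  carrier := {c | c ∈ cocycles W ∧
    (∀ v : HeightOneSpectrum (𝓞 K), TrivialOver W (v.adicCompletion K) c) ∧
    (∀ v : InfinitePlace K, TrivialOver W v.Completion c)}
  zero_mem' := ⟨zero_mem _, fun v j => ⟨0, by simp⟩, fun v j => ⟨0, by simp⟩⟩
  add_mem' := by
    rintro a b ⟨ha, ha', ha''⟩ ⟨hb, hb', hb''⟩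
    refine ⟨add_mem ha hb, fun v j => ?_, fun v j => ?_⟩
    · obtain ⟨P, hP⟩ := ha' v j
      obtain ⟨Q, hQ⟩ := hb' v j
      refine ⟨P + Q, fun σ τ h => ?_⟩
      simp only [Pi.add_apply, map_add, hP σ τ h, hQ σ τ h]
      abel
    · obtain ⟨P, hP⟩ := ha'' v j
      obtain ⟨Q, hQ⟩ := hb'' v j
      refine ⟨P + Q, fun σ τ h => ?_⟩
      simp only [Pi.add_apply, map_add, hP σ τ h, hQ σ τ h]
      abel
  neg_mem' := by
    rintro a ⟨ha, ha', ha''⟩
    refine ⟨neg_mem ha, fun v j => ?_, fun v j => ?_⟩
    · obtain ⟨P, hP⟩ := ha' v j
      refine ⟨-P, fun σ τ h => ?_⟩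
      simp only [Pi.neg_apply, map_neg, hP σ τ h]
      abel
    · obtain ⟨P, hP⟩ := ha'' v j
      refine ⟨-P, fun σ τ h => ?_⟩
      simp only [Pi.neg_apply, map_neg, hP σ τ h]
      abel

/-- The Tate–Shafarevich group of `W` over the number field `K`. -/
abbrev Sha : Type _ := locTrivial W ⧸ (coboundaries W).addSubgroupOf (locTrivial W)

end Sha2

end SBSD
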