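import Mathlib

/-!
# MP_9ab903_nt: the discriminant of a subfield of a cyclotomic field of level `m` is prime to every
prime which does not divide `m` (module (D) of the strong BSD project)
-/

set_option autoImplicit false

open NumberField

namespace CM27

/-- The discriminant of the `m`-th cyclotomic field divides `m ^ φ(m)`. -/
theorem disc_cyclotomic_dvd (m : ℕ) [NeZero m] (M : Type) [Field M] [NumberField M]
    [IsCyclotomicExtension {m} ℚ M] : (NumberField.discr M).natAbs ∣ m ^ m.totient := by
  rw [IsCyclotomicExtension.Rat.natAbs_discr m M]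
  exact Nat.div_dvd_of_dvd (Nat.prod_primeFactors_pow_totient_ediv_dvd (NeZero.pos _))

/-- The discriminant of a subfield of the `m`-th cyclotomic field divides `m ^ φ(m)`. -/
theorem disc_dvd (m : ℕ) [NeZero m] (M : Type) [Field M] [NumberField M]
    [IsCyclotomicExtension {m} ℚ M] (F : IntermediateField ℚ M) :
    (NumberField.discr F).natAbs ∣ m ^ m.totient :=
  (Int.natAbs_dvd_natAbs.2 (NumberField.discr_dvd_discr F M)).trans (disc_cyclotomic_dvd m M)

/-- A prime which does not divide `m` does not divide the discriminant. -/
theorem disc_prime_not_dvd (m : ℕ) [NeZero m] (M : Type) [Field M] [NumberField M]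
    [IsCyclotomicExtension {m} ℚ M] (F : IntermediateField ℚ M) (p : ℕ) (hp : p.Prime)
    (h : ¬ p ∣ m) : ¬ p ∣ (NumberField.discr F).natAbs := fun h1 =>
  h (hp.dvd_of_dvd_pow (h1.trans (disc_dvd m M F)))

/-- The discriminant is odd when the level is odd. -/
theorem disc_odd (m : ℕ) [NeZero m] (hm : Odd m) (M : Type) [Field M] [NumberField M]
    [IsCyclotomicExtension {m} ℚ M] (F : IntermediateField ℚ M) :
    Odd (NumberField.discr F).natAbs := by
  rw [← Nat.not_even_iff_odd, even_iff_two_dvd]
  exact disc_prime_not_dvd m M F 2 Nat.prime_two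
    (fun h => (Nat.not_even_iff_odd.2 hm) (even_iff_two_dvd.2 h))


end CM27
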