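import Pool.Agent.MP_ae0bd0_nt.CM.G5

/-!
# MP_9ab903_nt / MP_ae0bd0_nt: the twisted `L`-series of `E : y² + y = x³` are entire (module (L))

`G_entire`: for odd `m` and every Dirichlet character `χ` of level `m`, the series
`LSeries (coef χ)` extends to an entire function, with the same value at `1` as in `G_main`.

Method: instead of the second difference `f(2z) - 2f(z)` use the operator
`∏_{0<i<k} (T - 2^i)`, `T f(z) = f(2z)`, which kills all Taylor terms of degree `1, …, k-1` in `z`.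
-/

set_option autoImplicit false

open scoped ComplexConjugate
open Filter Topology Polynomial

namespace CM27

/-- `∏_{0<i<k} (X - 2^i)` -/
noncomputable def lentQ (k : ℕ) : ℂ[X] := ∏ i ∈ Finset.Ico 1 k, (X - C ((2 : ℂ) ^ i))

theorem lentQ_eval (k : ℕ) (x : ℂ) :
    (lentQ k).eval x = ∏ i ∈ Finset.Ico 1 k, (x - 2 ^ i) := by
  rw [lentQ, eval_prod]
  exact Finset.prod_congr rfl fun i _ => by rw [eval_sub, eval_X, eval_C]

theorem lentQ_eval_pow {k l : ℕ} (h1 : 1 ≤ l) (h2 : l < k) :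
    (lentQ k).eval ((2 : ℂ) ^ l) = 0 := by
  rw [lentQ_eval]
  exact Finset.prod_eq_zero (Finset.mem_Ico.2 ⟨h1, h2⟩) (sub_self _)

theorem lentQ_eval_ne (k : ℕ) (x : ℂ) (hx : ‖x‖ ≤ 1) : (lentQ k).eval x ≠ 0 := by
  rw [lentQ_eval]
  refine Finset.prod_ne_zero_iff.2 fun i hi h => ?_
  have h1 := (Finset.mem_Ico.1 hi).1
  have h2 : x = 2 ^ i := sub_eq_zero.1 h
  rw [h2, norm_pow, Complex.norm_ofNat] at hx
  have h3 : (2 : ℝ) ^ 1 ≤ 2 ^ i := pow_le_pow_right₀ (by norm_num) h1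
  linarith

/-- The number of terms of the operator. -/
noncomputable def lentN (k : ℕ) : ℕ := (lentQ k).natDegree

/-- The operator `∏_{0<i<k} (T - 2^i)`, `T f(z) = f(2z)`. -/
noncomputable def lentT (k : ℕ) (f : ℂ → ℂ) (z : ℂ) : ℂ :=
  ∑ j ∈ Finset.range (lentN k + 1), (lentQ k).coeff j * f (2 ^ j * z)

theorem lentQ_eval_sum (k : ℕ) (x : ℂ) :
    (lentQ k).eval x = ∑ j ∈ Finset.range (lentN k + 1), (lentQ k).coeff j * x ^ j :=
  eval_eq_sum_range x

/-- The sum of the absolute values of the coefficients. -/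
noncomputable def lentA (k : ℕ) : ℝ := ∑ j ∈ Finset.range (lentN k + 1), ‖(lentQ k).coeff j‖

theorem lentA_nonneg (k : ℕ) : 0 ≤ lentA k := Finset.sum_nonneg fun _ _ => norm_nonneg _

theorem lentQ_norm_le (k l : ℕ) : ‖(lentQ k).eval ((2 : ℂ) ^ l)‖ ≤ lentA k * (2 ^ lentN k) ^ l := by
  rw [lentQ_eval_sum, lentA, Finset.sum_mul]
  refine (norm_sum_le _ _).trans (Finset.sum_le_sum fun j hj => ?_)
  rw [norm_mul, norm_pow, norm_pow, Complex.norm_ofNat]
  refine mul_le_mul_of_nonneg_left ?_ (norm_nonneg _)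
  rw [← pow_mul, ← pow_mul]
  have hj' : j ≤ lentN k := Nat.lt_succ_iff.1 (Finset.mem_range.1 hj)
  exact pow_le_pow_right₀ (by norm_num) (by rw [mul_comm]; exact Nat.mul_le_mul_right _ hj')

/-- A series whose terms vanish below `k` and are bounded by a geometric series. -/
theorem lent_geom {k : ℕ} {K ρ : ℝ} (hK : 0 ≤ K) (hρ0 : 0 ≤ ρ) (hρ : ρ ≤ 1 / 2) {d : ℕ → ℂ} {x : ℂ}
    (hd : HasSum d x) (h0 : ∀ l < k, d l = 0) (h1 : ∀ l, ‖d l‖ ≤ K * ρ ^ l) :
    ‖x‖ ≤ 2 * K * ρ ^ k := by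
  have h2 : HasSum (fun l => d (l + k)) x := by
    have h3 := (hasSum_nat_add_iff' (f := d) k (g := x)).2 hd
    rwa [Finset.sum_eq_zero (fun i hi => h0 i (Finset.mem_range.1 hi)), sub_zero] at h3
  have h4 : HasSum (fun l : ℕ => K * ρ ^ k * ρ ^ l) (K * ρ ^ k * (1 - ρ)⁻¹) :=
    (hasSum_geometric_of_lt_one hρ0 (by linarith)).mul_left _
  have h5 : ‖x‖ ≤ K * ρ ^ k * (1 - ρ)⁻¹ := by
    refine h2.norm_le_of_bounded h4 fun l => ?_
    refine (h1 (l + k)).trans (le_of_eq ?_)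
    rw [pow_add]; ring
  have h6 : (1 - ρ)⁻¹ ≤ 2 := by
    rw [inv_le_comm₀ (by linarith) (by norm_num)]
    linarith
  have h7 : 0 ≤ K * ρ ^ k := mul_nonneg hK (pow_nonneg hρ0 k)
  calc ‖x‖ ≤ K * ρ ^ k * (1 - ρ)⁻¹ := h5
    _ ≤ K * ρ ^ k * 2 := mul_le_mul_of_nonneg_left h6 h7
    _ = 2 * K * ρ ^ k := by ring

/-- The operator kills the Taylor terms of degree `1, …, k - 1`. -/
theorem lent_cauchy (k : ℕ) (f : ℂ → ℂ) (M : ℝ) (hM : 0 ≤ M)
    (hf : DifferentiableOn ℂ f (Metric.ball 0 (1 / 2)))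
    (hb : ∀ t ∈ Metric.ball (0 : ℂ) (1 / 2), ‖f t‖ ≤ M) (t : ℂ)
    (ht : 4 * 2 ^ lentN k * ‖t‖ ≤ 1 / 2) :
    ‖lentT k f t - (lentQ k).eval 1 * f 0‖ ≤
      2 * (lentA k * M) * (4 * 2 ^ lentN k * ‖t‖) ^ k := by
  set c : ℕ → ℂ := fun l => (l.factorial : ℂ)⁻¹ * iteratedDeriv l f 0 with hc
  have hc0 : c 0 = f 0 := by simp [hc]
  have hball : Metric.closedBall (0 : ℂ) (1 / 4) ⊆ Metric.ball 0 (1 / 2) :=
    Metric.closedBall_subset_ball (by norm_num)
  have hcl : ∀ l, ‖c l‖ ≤ M * 4 ^ l := by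
    intro l
    have h1 : ‖iteratedDeriv l f 0‖ ≤ l.factorial * M / (1 / 4) ^ l := by
      apply Complex.norm_iteratedDeriv_le_of_forall_mem_sphere_norm_le l (by norm_num)
      · exact hf.diffContOnCl_ball hball
      · intro z hz
        exact hb z (hball (Metric.sphere_subset_closedBall hz))
    have h2 : (0 : ℝ) < l.factorial := by positivity
    rw [hc]
    simp only [norm_mul, norm_inv, Complex.norm_natCast]
    calc (l.factorial : ℝ)⁻¹ * ‖iteratedDeriv l f 0‖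
        ≤ (l.factorial : ℝ)⁻¹ * (l.factorial * M / (1 / 4) ^ l) :=
          mul_le_mul_of_nonneg_left h1 (by positivity)
      _ = M * 4 ^ l := by
          rw [one_div, inv_pow, div_inv_eq_mul, ← mul_assoc, ← mul_assoc,
            inv_mul_cancel₀ h2.ne', one_mul]
  have hser : ∀ u ∈ Metric.ball (0 : ℂ) (1 / 2), HasSum (fun l => c l * u ^ l) (f u) := by
    intro u hu
    have h1 := Complex.hasSum_taylorSeries_on_ball hf hu
    have h2 : (fun l : ℕ => (l.factorial : ℂ)⁻¹ • (u - 0) ^ l • iteratedDeriv l f 0) =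
        fun l => c l * u ^ l := by
      funext l
      simp only [hc, smul_eq_mul, sub_zero]
      ring
    rwa [h2] at h1
  have hρ0 : 0 ≤ 4 * 2 ^ lentN k * ‖t‖ := by positivity
  have hmem : ∀ j ∈ Finset.range (lentN k + 1), (2 : ℂ) ^ j * t ∈ Metric.ball (0 : ℂ) (1 / 2) := by
    intro j hj
    have hj' : j ≤ lentN k := Nat.lt_succ_iff.1 (Finset.mem_range.1 hj)
    rw [mem_ball_zero_iff, norm_mul, norm_pow, Complex.norm_ofNat]
    have h1 : (2 : ℝ) ^ j ≤ 2 ^ lentN k := pow_le_pow_right₀ (by norm_num) hj'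
    have h2 : (2 : ℝ) ^ j * ‖t‖ ≤ 2 ^ lentN k * ‖t‖ :=
      mul_le_mul_of_nonneg_right h1 (norm_nonneg _)
    linarith
  have hsum1 : HasSum (fun l => ∑ j ∈ Finset.range (lentN k + 1),
      (lentQ k).coeff j * (c l * (2 ^ j * t) ^ l)) (lentT k f t) :=
    hasSum_sum fun j hj => (hser _ (hmem j hj)).mul_left _
  have hsum2 : HasSum (fun l : ℕ => if l = 0 then (lentQ k).eval 1 * f 0 else 0)
      ((lentQ k).eval 1 * f 0) := hasSum_ite_eq 0 _
  have hterm : ∀ l, ∑ j ∈ Finset.range (lentN k + 1),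
      (lentQ k).coeff j * (c l * (2 ^ j * t) ^ l) = c l * t ^ l * (lentQ k).eval (2 ^ l) := by
    intro l
    rw [lentQ_eval_sum, Finset.mul_sum]
    refine Finset.sum_congr rfl fun j _ => ?_
    rw [mul_pow, ← pow_mul, ← pow_mul, mul_comm j l]
    ring
  have hsum3 := hsum1.sub hsum2
  have hzero : ∀ l, l < k ∨ l = 0 → (∑ j ∈ Finset.range (lentN k + 1),
      (lentQ k).coeff j * (c l * (2 ^ j * t) ^ l)) -
        (if l = 0 then (lentQ k).eval 1 * f 0 else 0) = 0 := by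
    intro l hl
    rw [hterm]
    by_cases h : l = 0
    · subst h
      simp [hc0, mul_comm]
    · rw [if_neg h, lentQ_eval_pow (Nat.one_le_iff_ne_zero.2 h) (hl.resolve_right h)]
      ring
  refine lent_geom (mul_nonneg (lentA_nonneg k) hM) hρ0 ht hsum3
    (fun l hl => hzero l (Or.inl hl)) fun l => ?_
  by_cases h : l = 0
  · rw [hzero l (Or.inr h), norm_zero]
    exact mul_nonneg (mul_nonneg (lentA_nonneg k) hM) (pow_nonneg hρ0 _)
  · rw [if_neg h, sub_zero, hterm, norm_mul, norm_mul, norm_pow]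
    have h1 := hcl l
    have h2 := lentQ_norm_le k l
    calc ‖c l‖ * ‖t‖ ^ l * ‖(lentQ k).eval ((2 : ℂ) ^ l)‖
        ≤ (M * 4 ^ l) * ‖t‖ ^ l * (lentA k * (2 ^ lentN k) ^ l) := by
          gcongr
      _ = lentA k * M * (4 * 2 ^ lentN k * ‖t‖) ^ l := by
          rw [mul_pow, mul_pow]; ring

/-- The norm of `gs s u` for `u ≠ 0`. -/
theorem lent_norm_gs (s u : ℂ) (hu : u ≠ 0) : ‖gs s u‖ = ‖u‖ ^ (1 - 2 * s.re) := by
  have h1 : 0 < ‖u‖ := norm_pos_iff.2 hu
  rw [gs, norm_mul, Complex.norm_conj, Complex.norm_cpow_eq_rpow_re_of_pos h1]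
  have h2 : (-2 * s).re = -2 * s.re := by
    rw [show (-2 : ℂ) = ((-2 : ℝ) : ℂ) by push_cast; ring, Complex.re_ofReal_mul]
  rw [h2]
  calc ‖u‖ * ‖u‖ ^ (-2 * s.re) = ‖u‖ ^ (1 : ℝ) * ‖u‖ ^ (-2 * s.re) := by rw [Real.rpow_one]
    _ = ‖u‖ ^ (1 - 2 * s.re) := by
        rw [← Real.rpow_add h1]
        congr 1
        ring

/-- The holomorphic extension of `τ ↦ gs s (1 + τ e)`. -/
noncomputable def lentH (s e t : ℂ) : ℂ :=
  (1 + t * conj e) * Complex.exp (-s * (Complex.log (1 + t * e) + Complex.log (1 + t * conj e)))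

theorem lentH_diff (s e : ℂ) (he : ‖e‖ = 1) :
    DifferentiableOn ℂ (lentH s e) (Metric.ball 0 (1 / 2)) := by
  intro t ht
  rw [mem_ball_zero_iff] at ht
  have h1 : 1 + t * e ∈ Complex.slitPlane := by
    apply Complex.mem_slitPlane_of_norm_lt_one
    rw [norm_mul, he, mul_one]
    linarith
  have h2 : 1 + t * conj e ∈ Complex.slitPlane := by
    apply Complex.mem_slitPlane_of_norm_lt_one
    rw [norm_mul, Complex.norm_conj, he, mul_one]
    linarith
  apply DifferentiableAt.differentiableWithinAt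
  unfold lentH
  have d1 : DifferentiableAt ℂ (fun t : ℂ => Complex.log (1 + t * e)) t :=
    DifferentiableAt.clog (by fun_prop) h1
  have d2 : DifferentiableAt ℂ (fun t : ℂ => Complex.log (1 + t * conj e)) t :=
    DifferentiableAt.clog (by fun_prop) h2
  have d3 : DifferentiableAt ℂ (fun t : ℂ => 1 + t * conj e) t := by fun_prop
  exact d3.mul (((d1.add d2).const_mul _).cexp)

theorem lentH_bound (s e : ℂ) (he : ‖e‖ = 1) (t : ℂ) (ht : t ∈ Metric.ball (0 : ℂ) (1 / 2)) :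
    ‖lentH s e t‖ ≤ 2 * Real.exp (2 * ‖s‖) := by
  rw [mem_ball_zero_iff] at ht
  have e1 : ‖t * e‖ ≤ 1 / 2 := by rw [norm_mul, he, mul_one]; exact ht.le
  have e2 : ‖t * conj e‖ ≤ 1 / 2 := by rw [norm_mul, Complex.norm_conj, he, mul_one]; exact ht.le
  have l1 := Complex.norm_log_one_add_half_le_self e1
  have l2 := Complex.norm_log_one_add_half_le_self e2
  rw [lentH, norm_mul, Complex.norm_exp]
  have b1 : ‖1 + t * conj e‖ ≤ 2 := by
    calc ‖1 + t * conj e‖ ≤ ‖(1 : ℂ)‖ + ‖t * conj e‖ := norm_add_le _ _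
      _ ≤ 2 := by rw [norm_one]; linarith
  have b2 : (-s * (Complex.log (1 + t * e) + Complex.log (1 + t * conj e))).re ≤ 2 * ‖s‖ := by
    calc (-s * (Complex.log (1 + t * e) + Complex.log (1 + t * conj e))).re
        ≤ ‖-s * (Complex.log (1 + t * e) + Complex.log (1 + t * conj e))‖ := Complex.re_le_norm _
      _ = ‖s‖ * ‖Complex.log (1 + t * e) + Complex.log (1 + t * conj e)‖ := by
          rw [norm_mul, norm_neg]
      _ ≤ ‖s‖ * 2 := by
          refine mul_le_mul_of_nonneg_left ?_ (norm_nonneg _)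
          refine (norm_add_le _ _).trans ?_
          linarith
      _ = 2 * ‖s‖ := by ring
  exact mul_le_mul b1 (Real.exp_le_exp.2 b2) (Real.exp_pos _).le (by norm_num)

theorem lentH_real (s e : ℂ) (he : ‖e‖ = 1) (t : ℝ) (ht0 : 0 ≤ t) (ht : t < 1) :
    lentH s e t = gs s (1 + t * e) := by
  set u : ℂ := 1 + t * e with hu
  have hmem : u ∈ Complex.slitPlane := by
    apply Complex.mem_slitPlane_of_norm_lt_one
    rw [norm_mul, he, mul_one, Complex.norm_real, Real.norm_of_nonneg ht0]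
    exact ht
  have hu0 : u ≠ 0 := Complex.slitPlane_ne_zero hmem
  have hconj : (1 : ℂ) + t * conj e = conj u := by
    rw [hu, map_add, map_mul, map_one, Complex.conj_ofReal]
  have hlog : Complex.log (conj u) = conj (Complex.log u) :=
    Complex.log_conj u (Complex.slitPlane_arg_ne_pi hmem)
  have hsum : Complex.log u + conj (Complex.log u) = 2 * (Real.log ‖u‖ : ℂ) := by
    rw [Complex.add_conj, Complex.log_re]
    push_cast
    ring
  have hn : (‖u‖ : ℂ) ≠ 0 := by exact_mod_cast (norm_pos_iff.2 hu0).ne'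
  rw [lentH, hconj, hlog, hsum, gs, Complex.cpow_def_of_ne_zero hn,
    Complex.ofReal_log (norm_nonneg u)]
  congr 2
  ring

/-- Polar decomposition. -/
theorem lent_polar (x : ℂ) : ∃ e : ℂ, ‖e‖ = 1 ∧ x = ‖x‖ * e := by
  by_cases hx : x = 0
  · exact ⟨1, norm_one, by rw [hx]; simp⟩
  · have h1 : (‖x‖ : ℂ) ≠ 0 := by exact_mod_cast (norm_pos_iff.2 hx).ne'
    refine ⟨x / ‖x‖, ?_, by field_simp⟩
    rw [norm_div, Complex.norm_real, norm_norm, div_self (norm_pos_iff.2 hx).ne']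

/-- `k`-th order differences of `gs s` are of order `|u| ^ (1 - 2 Re s - k)`. -/
theorem lent_diff (k : ℕ) (z : ℂ) (r : ℝ) : ∃ C R : ℝ, 0 ≤ C ∧ 1 ≤ R ∧ ∀ (s u : ℂ),
    ‖s‖ ≤ r → R ≤ ‖u‖ →
      ‖lentT k (fun v => gs s (v + u)) z - (lentQ k).eval 1 * gs s u‖ ≤
        C * ‖u‖ ^ (1 - 2 * s.re - k) := by
  set D : ℝ := 4 * 2 ^ lentN k * ‖z‖ with hD
  have hD0 : 0 ≤ D := by positivity
  refine ⟨2 * (lentA k * (2 * Real.exp (2 * r))) * D ^ k, max 1 (2 * D), ?_, le_max_left _ _, ?_⟩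
  · have := lentA_nonneg k
    positivity
  intro s u hs hu
  have hu1 : 1 ≤ ‖u‖ := (le_max_left _ _).trans hu
  have hu2 : 2 * D ≤ ‖u‖ := (le_max_right _ _).trans hu
  have hupos : 0 < ‖u‖ := by linarith
  have hu0 : u ≠ 0 := norm_pos_iff.1 hupos
  obtain ⟨e, he, hze⟩ := lent_polar (z / u)
  set τ : ℝ := ‖z / u‖ with hτ
  have hτ0 : 0 ≤ τ := norm_nonneg _
  have hτD : 4 * 2 ^ lentN k * τ = D / ‖u‖ := by
    rw [hτ, norm_div, hD]; ring
  have hτ2 : 4 * 2 ^ lentN k * τ ≤ 1 / 2 := by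
    rw [hτD, div_le_iff₀ hupos]; linarith
  have hpow : ∀ j ∈ Finset.range (lentN k + 1), (2 : ℝ) ^ j * τ < 1 := by
    intro j hj
    have hj' : j ≤ lentN k := Nat.lt_succ_iff.1 (Finset.mem_range.1 hj)
    have h1 : (2 : ℝ) ^ j ≤ 2 ^ lentN k := pow_le_pow_right₀ (by norm_num) hj'
    have h2 : (2 : ℝ) ^ j * τ ≤ 2 ^ lentN k * τ := mul_le_mul_of_nonneg_right h1 hτ0
    linarith
  have hT : lentT k (fun v => gs s (v + u)) z = gs s u * lentT k (lentH s e) τ := by
    rw [lentT, lentT, Finset.mul_sum]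
    refine Finset.sum_congr rfl fun j hj => ?_
    have h1 : lentH s e (2 ^ j * τ) = gs s (1 + 2 ^ j * (z / u)) := by
      have h2 := lentH_real s e he (2 ^ j * τ) (by positivity) (hpow j hj)
      push_cast at h2
      rw [h2, hze, mul_assoc]
    have h3 : (2 : ℂ) ^ j * z + u = u * (1 + 2 ^ j * (z / u)) := by
      field_simp
      ring
    rw [h1, h3, gs_mul]
    ring
  have hH0 : lentH s e 0 = 1 := by simp [lentH]
  have hkey := lent_cauchy k (lentH s e) (2 * Real.exp (2 * r)) (by positivity)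
    (lentH_diff s e he) (fun t ht => (lentH_bound s e he t ht).trans (by gcongr)) (τ : ℂ) (by
      rw [Complex.norm_real, Real.norm_of_nonneg hτ0]
      exact hτ2)
  rw [Complex.norm_real, Real.norm_of_nonneg hτ0, hτD, hH0, mul_one] at hkey
  have hfac : lentT k (fun v => gs s (v + u)) z - (lentQ k).eval 1 * gs s u =
      gs s u * (lentT k (lentH s e) τ - (lentQ k).eval 1) := by
    rw [hT]; ring
  rw [hfac, norm_mul, lent_norm_gs s u hu0]
  calc ‖u‖ ^ (1 - 2 * s.re) * ‖lentT k (lentH s e) τ - (lentQ k).eval 1‖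
      ≤ ‖u‖ ^ (1 - 2 * s.re) * (2 * (lentA k * (2 * Real.exp (2 * r))) * (D / ‖u‖) ^ k) :=
        mul_le_mul_of_nonneg_left hkey (Real.rpow_nonneg hupos.le _)
    _ = 2 * (lentA k * (2 * Real.exp (2 * r))) * D ^ k * ‖u‖ ^ (1 - 2 * s.re - k) := by
        rw [Real.rpow_sub hupos (1 - 2 * s.re) k, Real.rpow_natCast, div_pow]
        ring

/-- The terms of the regularised series. -/
noncomputable def lentS (k : ℕ) (z s : ℂ) (a : Eis) : ℂ :=
  lentT k (fun v => gs s (v + emb a)) z - (lentQ k).eval 1 * gs s (emb a)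

theorem lentS_diff (k : ℕ) (z : ℂ) (a : Eis) : Differentiable ℂ fun s => lentS k z s a := by
  unfold lentS lentT
  refine Differentiable.sub ?_ ((g2b_gs_differentiable _).const_mul _)
  refine Differentiable.fun_sum fun j _ => ?_
  exact (g2b_gs_differentiable _).const_mul _

/-- Crude bound. -/
noncomputable def lentB (k : ℕ) (z : ℂ) (r : ℝ) (a : Eis) : ℝ :=
  (∑ j ∈ Finset.range (lentN k + 1), ‖(lentQ k).coeff j‖ * g2b_m r (2 ^ j * z + emb a)) +
    ‖(lentQ k).eval 1‖ * g2b_m r (emb a)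

theorem lentS_le (k : ℕ) (z : ℂ) (r : ℝ) (s : ℂ) (hs : ‖s‖ ≤ r) (a : Eis) :
    ‖lentS k z s a‖ ≤ lentB k z r a := by
  unfold lentS lentT lentB
  refine (norm_sub_le _ _).trans (add_le_add ?_ ?_)
  · refine (norm_sum_le _ _).trans (Finset.sum_le_sum fun j _ => ?_)
    rw [norm_mul]
    exact mul_le_mul_of_nonneg_left (g2b_gs_le r s _ hs) (norm_nonneg _)
  · rw [norm_mul]
    exact mul_le_mul_of_nonneg_left (g2b_gs_le r s _ hs) (norm_nonneg _)

theorem lent_majorant (k : ℕ) (z : ℂ) (σ r : ℝ) (hσ : (3 - k : ℝ) / 2 < σ) :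
    ∃ b : Eis → ℝ, Summable b ∧ ∀ (a : Eis) (s : ℂ), σ < s.re → ‖s‖ < r →
      ‖lentS k z s a‖ ≤ b a := by
  obtain ⟨C, R, hC0, hR1, hC⟩ := lent_diff k z r
  classical
  refine ⟨fun a => if R ≤ ‖emb a‖ then C * ‖emb a‖ ^ (-(2 * σ + k - 1)) else lentB k z r a, ?_, ?_⟩
  · have h1 : Summable fun a : Eis => C * ‖emb a‖ ^ (-(2 * σ + k - 1)) :=
      (summable_norm (2 * σ + k - 1) (by linarith)).mul_left _
    refine h1.congr_cofinite ?_
    filter_upwards [g2b_eventually_large R] with a ha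
    rw [if_pos ha]
  · intro a s hs1 hs2
    by_cases h : R ≤ ‖emb a‖
    · simp only [if_pos h]
      have ha1 : 1 ≤ ‖emb a‖ := hR1.trans h
      refine (hC s (emb a) hs2.le h).trans ?_
      refine mul_le_mul_of_nonneg_left ?_ hC0
      exact Real.rpow_le_rpow_of_exponent_le ha1 (by linarith)
    · simp only [if_neg h]
      exact lentS_le k z r s hs2.le a

theorem lent_tsum_diff (k : ℕ) (z : ℂ) :
    DifferentiableOn ℂ (fun s => ∑' a : Eis, lentS k z s a) {s : ℂ | (3 - k : ℝ) / 2 < s.re} := by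
  intro s0 hs0
  have hs0' : (3 - k : ℝ) / 2 < s0.re := hs0
  obtain ⟨b, hb, hle⟩ := lent_majorant k z (((3 - k : ℝ) / 2 + s0.re) / 2) (‖s0‖ + 1)
    (by linarith)
  have hopen : IsOpen ({s : ℂ | ((3 - k : ℝ) / 2 + s0.re) / 2 < s.re} ∩
      {s : ℂ | ‖s‖ < ‖s0‖ + 1}) :=
    (isOpen_lt continuous_const Complex.continuous_re).inter
      (isOpen_lt continuous_norm continuous_const)
  have h1 : DifferentiableOn ℂ (fun s => ∑' a : Eis, lentS k z s a)
      ({s : ℂ | ((3 - k : ℝ) / 2 + s0.re) / 2 < s.re} ∩ {s : ℂ | ‖s‖ < ‖s0‖ + 1}) :=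
    Complex.differentiableOn_tsum_of_summable_norm hb
      (fun a => (lentS_diff k z a).differentiableOn) hopen
      (fun a s hs => hle a s hs.1 hs.2)
  have hmem : s0 ∈ {s : ℂ | ((3 - k : ℝ) / 2 + s0.re) / 2 < s.re} ∩ {s : ℂ | ‖s‖ < ‖s0‖ + 1} := by
    constructor
    · show ((3 - k : ℝ) / 2 + s0.re) / 2 < s0.re
      linarith
    · show ‖s0‖ < ‖s0‖ + 1
      linarith
  exact ((h1 s0 hmem).differentiableAt (hopen.mem_nhds hmem)).differentiableWithinAt

theorem lent_tsum_eq (k : ℕ) (z s : ℂ) (hs : 3 / 2 < s.re) :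
    ∑' a : Eis, lentS k z s a = lentT k (Hs s) z := by
  have e3 : Summable fun a : Eis => gs s (emb a) := by
    have := summable_gs s 0 hs
    simpa using this
  have e4 : ∑' a : Eis, gs s (emb a) = 0 := by
    have := Hs_zero s
    simpa [Hs] using this
  have e1 : ∀ j ∈ Finset.range (lentN k + 1),
      Summable fun a : Eis => (lentQ k).coeff j * gs s (2 ^ j * z + emb a) :=
    fun j _ => (summable_gs s _ hs).mul_left _
  unfold lentS lentT
  rw [(summable_sum e1).tsum_sub (e3.mul_left _), tsum_mul_left, e4, mul_zero, sub_zero,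
    Summable.tsum_finsetSum e1]
  refine Finset.sum_congr rfl fun j _ => ?_
  rw [tsum_mul_left]
  rfl

/-- Multiplication by `-2` permutes the classes (general form of `sum_two`). -/
theorem lent_sum_two {m : ℕ} (hm : Odd m) (χ : DirichletCharacter ℂ m) (f : ℂ → ℂ)
    (hadd : ∀ z a, f (z + emb a) = f z) (hneg : ∀ z, f (-z) = -f z) :
    ∑ i ∈ Finset.range m, ∑ j ∈ Finset.range m,
        chiN χ (cc i j) * f (2 * (emb (cc i j) / (3 * m))) =
      - conj (χ 4) * ∑ i ∈ Finset.range m, ∑ j ∈ Finset.range m,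
          chiN χ (cc i j) * f (emb (cc i j) / (3 * m)) := by
  have hstep : ∀ i j : ℕ,
      chiN χ (cc ((((-1 : ℤ) - 2 * i) % m).toNat) ((((0 : ℤ) - 2 * j) % m).toNat)) *
        f (emb (cc ((((-1 : ℤ) - 2 * i) % m).toNat) ((((0 : ℤ) - 2 * j) % m).toNat)) / (3 * m)) =
      - (χ 4 * (chiN χ (cc i j) * f (2 * (emb (cc i j) / (3 * m))))) := by
    intro i j
    have hm0 : (0 : ℤ) < m := by exact_mod_cast hm.pos
    set a : ℤ := ((-1 : ℤ) - 2 * i) with ha
    set b : ℤ := ((0 : ℤ) - 2 * j) with hb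
    have ea : ((a % m).toNat : ℤ) = a - m * (a / m) := by
      rw [Int.toNat_of_nonneg (Int.emod_nonneg _ hm0.ne'), Int.emod_def]
    have eb : ((b % m).toNat : ℤ) = b - m * (b / m) := by
      rw [Int.toNat_of_nonneg (Int.emod_nonneg _ hm0.ne'), Int.emod_def]
    have hre := G4_re
    have him := G4_im
    set c' := cc (a % m).toNat (b % m).toNat with hc'
    have r' : c'.re = -2 * (cc i j).re + 3 * m * (-(a / m)) := by
      rw [hc', hre, hre, ea, ha]; ring
    have i' : c'.im = -2 * (cc i j).im + 3 * m * (-(b / m)) := by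
      rw [hc', him, him, eb, hb]; ring
    have hn : ((c'.norm : ℤ) : ZMod m) = 4 * (((cc i j).norm : ℤ) : ZMod m) := by
      rw [norm_eq, norm_eq, r', i']
      push_cast
      have hz : ((m : ℕ) : ZMod m) = 0 := ZMod.natCast_self m
      rw [hz]
      ring
    have hm1 : (m : ℂ) ≠ 0 := by
      have := hm.pos
      exact_mod_cast this.ne'
    have he : emb c' / (3 * m) = -(2 * (emb (cc i j) / (3 * m))) + emb ⟨-(a / m), -(b / m)⟩ := by
      rw [emb_apply, emb_apply, emb_apply, r', i']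
      push_cast
      field_simp
      ring
    rw [he, hadd, hneg]
    have h1 : chiN χ c' = χ 4 * chiN χ (cc i j) := by
      unfold chiN
      rw [hn, map_mul]
    rw [h1]; ring
  have h1 : ∑ i ∈ Finset.range m, ∑ j ∈ Finset.range m,
      chiN χ (cc i j) * f (emb (cc i j) / (3 * m)) =
      ∑ i ∈ Finset.range m, ∑ j ∈ Finset.range m,
        - (χ 4 * (chiN χ (cc i j) * f (2 * (emb (cc i j) / (3 * m))))) := by
    rw [← G4_reidx hm (-1) (fun i => ∑ j ∈ Finset.range m,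
      chiN χ (cc i j) * f (emb (cc i j) / (3 * m)))]
    apply Finset.sum_congr rfl
    intro i _
    rw [← G4_reidx hm 0 (fun j => chiN χ (cc (((-1 : ℤ) - 2 * i) % m).toNat j) *
      f (emb (cc (((-1 : ℤ) - 2 * i) % m).toNat j) / (3 * m)))]
    apply Finset.sum_congr rfl
    intro j _
    exact hstep i j
  rw [h1]
  simp only [Finset.sum_neg_distrib, ← Finset.mul_sum]
  have h2 := G4_chi4 hm χ
  generalize (∑ i ∈ Finset.range m, ∑ j ∈ Finset.range m,
        chiN χ (cc i j) * f (2 * (emb (cc i j) / (3 * m)))) = S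
  linear_combination (-S) * h2

theorem lent_sum_pow {m : ℕ} (hm : Odd m) (χ : DirichletCharacter ℂ m) (s : ℂ) (l : ℕ) :
    ∑ i ∈ Finset.range m, ∑ j ∈ Finset.range m,
        chiN χ (cc i j) * Hs s (2 ^ l * (emb (cc i j) / (3 * m))) =
      (- conj (χ 4)) ^ l * ∑ i ∈ Finset.range m, ∑ j ∈ Finset.range m,
          chiN χ (cc i j) * Hs s (emb (cc i j) / (3 * m)) := by
  induction l with
  | zero => simp
  | succ l ih =>
    have h1 := lent_sum_two hm χ (fun z => Hs s (2 ^ l * z)) (by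
      intro z a
      have h2 : (2 : ℂ) ^ l * (z + emb a) = 2 ^ l * z + emb (2 ^ l * a) := by
        rw [map_mul, map_pow, map_ofNat]; ring
      rw [h2, Hs_add]) (by
      intro z
      rw [mul_neg, Hs_neg])
    beta_reduce at h1
    rw [pow_succ (- conj (χ 4)), mul_comm ((- conj (χ 4)) ^ l), mul_assoc, ← ih, ← h1]
    refine Finset.sum_congr rfl fun i _ => Finset.sum_congr rfl fun j _ => ?_
    rw [pow_succ, mul_assoc]

/-- Continuation to `Re s > (3 - k) / 2`. -/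
theorem lent_half {m : ℕ} (hm : Odd m) (χ : DirichletCharacter ℂ m) (k : ℕ) :
    ∃ Φ : ℂ → ℂ, DifferentiableOn ℂ Φ {s : ℂ | (3 - k : ℝ) / 2 < s.re} ∧
      ∀ s : ℂ, 3 / 2 < s.re → Φ s = LSeries (coef χ) s := by
  have hm0 : m ≠ 0 := by
    rintro rfl
    exact absurd hm (by decide)
  have hmC : (3 * m : ℂ) ≠ 0 := by
    have : (m : ℂ) ≠ 0 := Nat.cast_ne_zero.2 hm0
    exact mul_ne_zero (by norm_num) this
  have hQ : (lentQ k).eval (- conj (χ 4)) ≠ 0 := by
    apply lentQ_eval_ne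
    rw [norm_neg, Complex.norm_conj]
    exact DirichletCharacter.norm_le_one χ 4
  refine ⟨fun s => (3 * m : ℂ) ^ (1 - 2 * s) * ((lentQ k).eval (- conj (χ 4)))⁻¹ *
    ∑ i ∈ Finset.range m, ∑ j ∈ Finset.range m, chiN χ (cc i j) *
      ∑' a : Eis, lentS k (emb (cc i j) / (3 * m)) s a, ?_, ?_⟩
  · have e1 : Differentiable ℂ (fun s : ℂ => (3 * m : ℂ) ^ (1 - 2 * s)) := by
      apply Differentiable.const_cpow
      · fun_prop
      · left
        exact hmC
    apply DifferentiableOn.mul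
    · exact (e1.mul_const _).differentiableOn
    · refine DifferentiableOn.fun_sum fun i _ => ?_
      refine DifferentiableOn.fun_sum fun j _ => ?_
      exact (lent_tsum_diff k _).const_mul _
  · intro s hs
    obtain ⟨-, g2⟩ := LSeries_coef hm0 χ s hs
    have g3 : ∑ i ∈ Finset.range m, ∑ j ∈ Finset.range m, chiN χ (cc i j) *
        ∑' a : Eis, lentS k (emb (cc i j) / (3 * m)) s a =
        (lentQ k).eval (- conj (χ 4)) * ∑ i ∈ Finset.range m, ∑ j ∈ Finset.range m,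
          chiN χ (cc i j) * Hs s (emb (cc i j) / (3 * m)) := by
      have h1 : ∀ i j : ℕ, chiN χ (cc i j) * ∑' a : Eis, lentS k (emb (cc i j) / (3 * m)) s a =
          ∑ l ∈ Finset.range (lentN k + 1), (lentQ k).coeff l *
            (chiN χ (cc i j) * Hs s (2 ^ l * (emb (cc i j) / (3 * m)))) := by
        intro i j
        rw [lent_tsum_eq k _ s hs, lentT, Finset.mul_sum]
        refine Finset.sum_congr rfl fun l _ => ?_
        ring
      have h2 : ∀ i ∈ Finset.range m, ∑ j ∈ Finset.range m, chiN χ (cc i j) *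
          ∑' a : Eis, lentS k (emb (cc i j) / (3 * m)) s a =
          ∑ l ∈ Finset.range (lentN k + 1), (lentQ k).coeff l * ∑ j ∈ Finset.range m,
            (chiN χ (cc i j) * Hs s (2 ^ l * (emb (cc i j) / (3 * m)))) := by
        intro i _
        rw [Finset.sum_congr rfl fun j _ => h1 i j, Finset.sum_comm]
        exact Finset.sum_congr rfl fun l _ => (Finset.mul_sum _ _ _).symm
      rw [Finset.sum_congr rfl h2, Finset.sum_comm, lentQ_eval_sum, Finset.sum_mul]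
      refine Finset.sum_congr rfl fun l _ => ?_
      rw [← Finset.mul_sum, lent_sum_pow hm χ s, mul_assoc]
    beta_reduce
    rw [g2, g3]
    field_simp

/-- Gluing: compatible continuations to all half planes give an entire function. -/
theorem lent_glue (f : ℂ → ℂ) (h : ∀ k : ℕ, ∃ Φ : ℂ → ℂ,
    DifferentiableOn ℂ Φ {s : ℂ | (3 - k : ℝ) / 2 < s.re} ∧ ∀ s : ℂ, 3 / 2 < s.re → Φ s = f s) :
    ∃ Φ : ℂ → ℂ, Differentiable ℂ Φ ∧ ∀ s : ℂ, 3 / 2 < s.re → Φ s = f s := by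
  choose Φ hd he using h
  have hopen : ∀ k : ℕ, IsOpen {s : ℂ | (3 - k : ℝ) / 2 < s.re} := fun k =>
    isOpen_lt continuous_const Complex.continuous_re
  -- compatibility
  have hcomp : ∀ k l : ℕ, k ≤ l → ∀ s : ℂ, (3 - k : ℝ) / 2 < s.re → Φ k s = Φ l s := by
    intro k l hkl s hs
    have hkl' : (k : ℝ) ≤ l := by exact_mod_cast hkl
    have hsub : {s : ℂ | (3 - k : ℝ) / 2 < s.re} ⊆ {s : ℂ | (3 - l : ℝ) / 2 < s.re} := by
      intro t ht
      have ht' : (3 - k : ℝ) / 2 < t.re := ht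
      show (3 - l : ℝ) / 2 < t.re
      linarith
    have a1 : AnalyticOnNhd ℂ (Φ k) {s : ℂ | (3 - k : ℝ) / 2 < s.re} :=
      (hd k).analyticOnNhd (hopen k)
    have a2 : AnalyticOnNhd ℂ (Φ l) {s : ℂ | (3 - k : ℝ) / 2 < s.re} :=
      ((hd l).mono hsub).analyticOnNhd (hopen k)
    have hconv : IsPreconnected {s : ℂ | (3 - k : ℝ) / 2 < s.re} :=
      (convex_halfSpace_re_gt _).isPreconnected
    have hk0 : (0 : ℝ) ≤ k := Nat.cast_nonneg k
    have hmem : (2 : ℂ) ∈ {s : ℂ | (3 - k : ℝ) / 2 < s.re} := by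
      show (3 - k : ℝ) / 2 < (2 : ℂ).re
      norm_num
      linarith
    refine a1.eqOn_of_preconnected_of_eventuallyEq a2 hconv hmem ?_ hs
    have h1 : {s : ℂ | 3 / 2 < s.re} ∈ 𝓝 (2 : ℂ) :=
      (isOpen_lt continuous_const Complex.continuous_re).mem_nhds (by
        show (3 / 2 : ℝ) < (2 : ℂ).re
        norm_num)
    filter_upwards [h1] with t ht
    rw [he k t ht, he l t ht]
  -- the level used at `s`
  set κ : ℂ → ℕ := fun s => ⌈3 - 2 * s.re⌉₊ + 1 with hκ
  have hκs : ∀ s : ℂ, (3 - κ s : ℝ) / 2 < s.re := by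
    intro s
    have h1 : (3 - 2 * s.re : ℝ) ≤ ⌈3 - 2 * s.re⌉₊ := Nat.le_ceil _
    rw [hκ]
    push_cast
    linarith
  have hval : ∀ (k : ℕ) (s : ℂ), (3 - k : ℝ) / 2 < s.re → Φ (κ s) s = Φ k s := by
    intro k s hs
    rcases le_total k (κ s) with h1 | h1
    · exact (hcomp k (κ s) h1 s hs).symm
    · exact hcomp (κ s) k h1 s (hκs s)
  refine ⟨fun s => Φ (κ s) s, ?_, fun s hs => he _ s hs⟩
  intro s
  have h1 : DifferentiableAt ℂ (Φ (κ s)) s :=
    ((hd (κ s)) s (hκs s)).differentiableAt ((hopen (κ s)).mem_nhds (hκs s))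
  refine h1.congr_of_eventuallyEq ?_
  filter_upwards [(hopen (κ s)).mem_nhds (hκs s)] with t ht
  exact hval (κ s) t ht

/-- **The twisted `L`-series of `E` are entire**, with the special value of `G_main`. -/
theorem G_entire {m : ℕ} (hm : Odd m) (χ : DirichletCharacter ℂ m) :
    ∃ Φ : ℂ → ℂ, Differentiable ℂ Φ ∧
      (∀ s : ℂ, 3 / 2 < s.re → LSeriesSummable (coef χ) s ∧ Φ s = LSeries (coef χ) s) ∧
      Φ 1 = - (3 * m : ℂ)⁻¹ * (2 + conj (χ 4))⁻¹ *
        ∑ i ∈ Finset.range m, ∑ j ∈ Finset.range m,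
          chiN χ (cc i j) * lam (emb (cc i j) / (3 * m)) := by
  obtain ⟨Φ, hΦ, hΦe⟩ := lent_glue (LSeries (coef χ)) (lent_half hm χ)
  obtain ⟨Ψ, hΨ, hΨe, hΨ1⟩ := G_main hm χ
  refine ⟨Φ, hΦ, fun s hs => ⟨(hΨe s hs).1, hΦe s hs⟩, ?_⟩
  rw [← hΨ1]
  have hopen : IsOpen HP := isOpen_lt continuous_const Complex.continuous_re
  have a1 : AnalyticOnNhd ℂ Φ HP := hΦ.differentiableOn.analyticOnNhd hopen
  have a2 : AnalyticOnNhd ℂ Ψ HP := hΨ.analyticOnNhd hopen
  have hconv : IsPreconnected HP := (convex_halfSpace_re_gt (1 / 2)).isPreconnected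
  have hmem : (2 : ℂ) ∈ HP := by
    show (1 / 2 : ℝ) < (2 : ℂ).re
    norm_num
  have h1mem : (1 : ℂ) ∈ HP := by
    show (1 / 2 : ℝ) < (1 : ℂ).re
    norm_num
  refine a1.eqOn_of_preconnected_of_eventuallyEq a2 hconv hmem ?_ h1mem
  have h1 : {s : ℂ | 3 / 2 < s.re} ∈ 𝓝 (2 : ℂ) :=
    (isOpen_lt continuous_const Complex.continuous_re).mem_nhds (by
      show (3 / 2 : ℝ) < (2 : ℂ).re
      norm_num)
  filter_upwards [h1] with t ht
  rw [hΦe t ht, (hΨe t ht).2]

end CM27
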