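import Pool.Agent.MP_9ab903_nt.Tam
import Pool.Agent.MP_9ab903_nt.Lent
import Pool.Agent.MP_9ab903_nt.Disc
import Pool.Agent.MP_9ab903_nt.AN.Z
import Pool.Agent.MP_ae0bd0_nt.CM.F5
import Pool.Agent.MP_ae0bd0_nt.CM.R9

/-!
# [SB] assembly: the analytic side of the 2-part of the strong Birch and Swinnerton-Dyer conjecture
-/

set_option autoImplicit false

open ArithmeticFunction Filter IsDedekindDomain NumberField
open scoped ComplexConjugate Classical

namespace CM27

/-- A finite abelian group without elements of order 2 has odd order. -/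
theorem odd_card_of_no_two {G : Type*} [AddCommGroup G] [Finite G]
    (h : ∀ P Q : G, 2 • P = 2 • Q → P = Q) : Odd (Nat.card G) := by
  rw [← Nat.not_even_iff_odd, even_iff_two_dvd]
  intro h2
  obtain ⟨x, hx⟩ := exists_prime_addOrderOf_dvd_card' (G := G) 2 h2
  have h3 : 2 • x = 0 := by
    have := addOrderOf_nsmul_eq_zero x
    rwa [hx] at this
  have h4 : x = 0 := h x 0 (by rw [h3, smul_zero])
  rw [h4, addOrderOf_zero] at hx
  norm_num at hx

theorem odd_card_E (K : Type) [Field K] [CharZero K] [Fact (Irreducible (cubPoly K))]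
    [Finite (E K).toAffine.Point] : Odd (Nat.card (E K).toAffine.Point) :=
  odd_card_of_no_two fun _ _ hPQ => two_smul_injective hPQ

/-- In a finite abelian group every element is torsion. -/
theorem card_torsion (G : Type*) [AddCommGroup G] [Finite G] :
    Nat.card (AddCommGroup.torsion G) = Nat.card G := by
  have h : AddCommGroup.torsion G = ⊤ := by
    rw [eq_top_iff]
    intro x _
    exact isOfFinAddOrder_of_finite x
  rw [h]
  exact AddSubgroup.card_top

/-- A finite abelian group has rank 0. -/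
theorem finrank_finite (G : Type*) [AddCommGroup G] [Finite G] : Module.finrank ℤ G = 0 := by
  have h : Module.IsTorsion ℤ G := by
    intro x
    obtain ⟨k, hk, hkx⟩ := isOfFinAddOrder_iff_nsmul_eq_zero.1 (isOfFinAddOrder_of_finite x)
    refine ⟨⟨(k : ℤ), mem_nonZeroDivisors_of_ne_zero (by exact_mod_cast hk.ne')⟩, ?_⟩
    change (k : ℤ) • x = 0
    rw [natCast_zsmul]
    exact hkx
  exact Module.finrank_eq_zero_of_rank_eq_zero (Module.rank_eq_zero_iff_isTorsion.2 h)

/-- The order of `E(F)` is odd. -/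
theorem odd_card_points (m : ℕ) [NeZero m] (hm : GoodLevel m) (M : Type) [Field M]
    [NumberField M] [IsCyclotomicExtension {m} ℚ M] (F : IntermediateField ℚ M) (n : ℕ)
    (h : Module.finrank ℚ F = 2 ^ n) : Odd (Nat.card (E F).toAffine.Point) := by
  have hirr : Fact (Irreducible (cubPoly F)) := ⟨irreducible_of_two_pow n h⟩
  have hfin : Finite (E F).toAffine.Point := finite_points m hm hm.odd M F n h
  exact odd_card_E F

theorem padic_two_odd_nat (a : ℕ) (h : Odd a) : padicValRat 2 (a : ℚ) = 0 := by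
  rw [padicValRat.of_nat, padicValNat.eq_zero_of_not_dvd, Nat.cast_zero]
  intro h2
  exact (Nat.not_even_iff_odd.2 h) (even_iff_two_dvd.2 h2)

/-- The analytic side. -/
theorem analytic_full (m : ℕ) [NeZero m] (hm : GoodLevel m) (M : Type) [Field M]
    [NumberField M] [IsCyclotomicExtension {m} ℚ M] (F : IntermediateField ℚ M) (n : ℕ)
    (h : Module.finrank ℚ F = 2 ^ n) :
    ∃ Lm : ℂ → ℂ, Differentiable ℂ Lm ∧
      (∀ s : ℂ, 3 / 2 < s.re → LSeriesSummable (fun k => ((E F).LFunction k : ℂ)) s ∧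
        Lm s = (E F).LSeries s) ∧ Lm 1 ≠ 0 ∧
      ∃ q : ℚ, q ≠ 0 ∧ padicValRat 2 q = 0 ∧ Lm 1 ^ 2 = q * (period F : ℂ) ^ 2 := by
  have key : ∀ χ ∈ chars m F, ∃ Φ : ℂ → ℂ, Differentiable ℂ Φ ∧
      (∀ s : ℂ, 3 / 2 < s.re → LSeriesSummable (fun k => tw χ k) s ∧
        Φ s = LSeries (fun k => tw χ k) s) ∧ Φ 1 = - (OmC * WW χ) := by
    intro χ hχ
    have h3 : GoodLevel χ.conductor := hm.of_dvd χ.conductor_dvd_level
    have h4 : (fun k => tw χ k) = coef χ.primitiveCharacter := by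
      funext k
      rw [tw_apply, pval, coef]
    obtain ⟨Φ, hΦ, hs, -⟩ := G_entire h3.odd χ.primitiveCharacter
    refine ⟨Φ, hΦ, ?_, ?_⟩
    · rw [h4]; exact hs
    · exact G_value hm.odd χ Φ hΦ.differentiableOn fun s hs' => (hs s hs').2
  choose! Φ hΦ1 hΦ2 hΦ3 using key
  have hLC : (fun k => ((E F).LFunction k : ℂ)) = fun k => (∏ χ ∈ chars m F, tw χ) k := by
    funext k
    rw [← LC_apply, LC_eq m hm M F]
  obtain ⟨Lm, hLm1, hLm2, hLm3⟩ := analytic_part m hm M F n h
  set Ψ : ℂ → ℂ := fun s => ∏ χ ∈ chars m F, Φ χ s with hΨ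
  have hΨd : Differentiable ℂ Ψ := by
    have := Differentiable.fun_finsetProd (𝕜 := ℂ) (u := chars m F) (f := Φ) hΦ1
    exact this
  have hΨe : ∀ s : ℂ, 3 / 2 < s.re → LSeriesSummable (fun k => ((E F).LFunction k : ℂ)) s ∧
        Ψ s = (E F).LSeries s := by
    intro s hs
    obtain ⟨h1, h2⟩ := LSeries_prod (chars m F) (fun χ => tw χ) s
      (fun χ hχ => (hΦ2 χ hχ s hs).1)
    rw [hLC]
    refine ⟨h1, ?_⟩
    have h3 : (E F).LSeries s = LSeries (fun k => ((E F).LFunction k : ℂ)) s := rfl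
    rw [h3, hLC, h2]
    exact Finset.prod_congr rfl fun χ hχ => (hΦ2 χ hχ s hs).2
  obtain ⟨q0, hq0, hq1, hq2⟩ := analytic_main m hm M F n h
  obtain ⟨r, hr⟩ := period_sq F
  have hval : Ψ 1 ^ 2 = (-1) ^ (Module.finrank ℚ F) * (Om : ℂ) ^ (2 * Module.finrank ℚ F) * q0 := by
    have h1 : Ψ 1 = ∏ χ ∈ chars m F, -(OmC * WW χ) := Finset.prod_congr rfl hΦ3
    rw [h1, ← Finset.prod_pow]
    have h2 : ∀ χ ∈ chars m F, (-(OmC * WW χ)) ^ 2 = (-1 * (Om : ℂ) ^ 2) * WW χ ^ 2 := by
      intro χ _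
      have : OmC ^ 2 = -1 * (Om : ℂ) ^ 2 := by
        rw [OmC, mul_pow, Complex.I_sq]
      rw [neg_sq, mul_pow, this]
    rw [Finset.prod_congr rfl h2, Finset.prod_mul_distrib, Finset.prod_const, card_chars, hq2,
      mul_pow, ← pow_mul]
  have hOm : (Om : ℂ) ≠ 0 := by
    have h5 : Lm 1 = Ψ 1 := by
      have hopen : IsOpen HP := isOpen_lt continuous_const Complex.continuous_re
      have a1 : AnalyticOnNhd ℂ Ψ HP := hΨd.differentiableOn.analyticOnNhd hopen
      have a2 : AnalyticOnNhd ℂ Lm HP := hLm1.differentiableOn.analyticOnNhd hopen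
      have hconv : IsPreconnected HP := (convex_halfSpace_re_gt (1 / 2)).isPreconnected
      have hmem : (2 : ℂ) ∈ HP := by
        show (1 / 2 : ℝ) < (2 : ℂ).re
        norm_num
      have h1mem : (1 : ℂ) ∈ HP := by
        show (1 / 2 : ℝ) < (1 : ℂ).re
        norm_num
      refine a2.eqOn_of_preconnected_of_eventuallyEq a1 hconv hmem ?_ h1mem
      have h1 : {s : ℂ | 3 / 2 < s.re} ∈ nhds (2 : ℂ) :=
        (isOpen_lt continuous_const Complex.continuous_re).mem_nhds (by
          show (3 / 2 : ℝ) < (2 : ℂ).re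
          norm_num)
      filter_upwards [h1] with t ht
      rw [(hLm2 t ht).2, (hΨe t ht).2]
    intro h0
    apply hLm3
    have h6 : Ψ 1 ^ 2 = 0 := by
      rw [hval, h0, zero_pow (by
        have : 0 < Module.finrank ℚ F := Module.finrank_pos
        omega)]
      ring
    rw [h5]
    exact pow_eq_zero_iff (two_ne_zero) |>.1 h6
  have hq0' : (q0 : ℂ) ≠ 0 := by exact_mod_cast hq0
  have hne : Ψ 1 ≠ 0 := by
    intro h0
    have h1 : Ψ 1 ^ 2 = 0 := by rw [h0]; ring
    rw [hval] at h1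
    exact mul_ne_zero (mul_ne_zero (pow_ne_zero _ (by norm_num)) (pow_ne_zero _ hOm)) hq0' h1
  refine ⟨Ψ, hΨd, hΨe, hne, (-1) ^ (Module.finrank ℚ F) * q0 / 3 ^ r, ?_, ?_, ?_⟩
  · exact div_ne_zero (mul_ne_zero (pow_ne_zero _ (by norm_num)) hq0)
      (pow_ne_zero _ (by norm_num))
  · have h31 : padicValRat 2 ((3 : ℚ) ^ r) = 0 := by
      have := padic_two_odd_nat (3 ^ r) (Odd.pow (by decide))
      exact_mod_cast this
    have h32 : padicValRat 2 ((-1 : ℚ) ^ (Module.finrank ℚ F)) = 0 := by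
      rcases neg_one_pow_eq_or ℚ (Module.finrank ℚ F) with h33 | h33
      · rw [h33, padicValRat.one]
      · rw [h33, padicValRat.neg, padicValRat.one]
    rw [padicValRat.div (mul_ne_zero (pow_ne_zero _ (by norm_num)) hq0)
      (pow_ne_zero _ (by norm_num)), padicValRat.mul (pow_ne_zero _ (by norm_num)) hq0,
      h31, h32, hq1]
    rfl
  · have h1 : (period F : ℂ) ^ 2 = 3 ^ r * (Om : ℂ) ^ (2 * Module.finrank ℚ F) := by
      exact_mod_cast congrArg (fun t : ℝ => (t : ℂ)) hr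
    rw [h1, hval]
    push_cast
    have h3 : (3 : ℂ) ^ r ≠ 0 := pow_ne_zero _ (by norm_num)
    field_simp

end CM27
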