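import Pool.Agent.MP_9ab903_nt.Defs

/-!
# The strong Birch and Swinnerton-Dyer conjecture over number fields: definitions for the final
statement
-/

set_option autoImplicit false

open NumberField IsDedekindDomain

namespace SBSD

variable {K : Type} [Field K] [NumberField K] (W : WeierstrassCurve K)

/-- `L` is an entire function which extends the `L`-series of `W`; the series converges absolutely
for `Re s > 3/2`. -/
def IsEntireLSeries (L : ℂ → ℂ) : Prop :=
  Differentiable ℂ L ∧ ∀ s : ℂ, 3 / 2 < s.re →
    LSeriesSummable (fun k => (W.LFunction k : ℂ)) s ∧ L s = W.LSeries s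

open Classical in
/-- The quotient `a √|Δ(K)| |W(K)_tors|² / (Ω(W) ∏ c_v)`. If `W(K)` is finite and `a = L(W, 1)`, the
conjecture asserts that it is the order of the Tate–Shafarevich group. -/
noncomputable def bsdQuotient (a : ℂ) : ℂ :=
  a * (√|(discr K : ℝ)| : ℝ) * (Nat.card (AddCommGroup.torsion W.toAffine.Point) : ℂ) ^ 2 /
    ((period W : ℂ) * ((∏ᶠ v : HeightOneSpectrum (𝓞 K), tam W v : ℕ) : ℂ))

open Classical in
/-- The rank part of the conjecture for `W` (with rank 0) together with the `2`-part of the formula
for the leading coefficient: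
`W` is an elliptic curve and `W(K)` is finite (so that its rank is 0 and its regulator is 1), the
`L`-series extends to an entire function `L` whose order of vanishing at 1 is the rank of `W(K)`,
with `L(1) ≠ 0`, the Tate–Shafarevich group has no nonzero element of `2`-power order, and the square
of `L(1) √|Δ(K)| |W(K)_tors|² / (Ω(W) ∏ c_v)` is a nonzero rational number whose `2`-adic valuation
is 0. -/
def TwoPartRankZero : Prop :=
  W.IsElliptic ∧ Finite W.toAffine.Point ∧
    ∃ L : ℂ → ℂ, IsEntireLSeries W L ∧
      analyticOrderAt L 1 = Module.finrank ℤ W.toAffine.Point ∧ L 1 ≠ 0 ∧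
      (∀ (x : Sha W) (k : ℕ), 2 ^ k • x = 0 → x = 0) ∧
      ∃ q : ℚ, q ≠ 0 ∧ padicValRat 2 q = 0 ∧ bsdQuotient W (L 1) ^ 2 = q

end SBSD
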