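import Pool.Agent.MP_9ab903_nt.MAIN3
import Pool.Agent.MP_dfae13_nt.R.Gen

/-!
# The 3-part of the Birch and Swinnerton-Dyer formula for the abelian varieties `Res_{F/ℚ} E_r`
-/

set_option autoImplicit false

open NumberField IsDedekindDomain CM27 BS3
open scoped Classical

namespace SB3

theorem good_of_unit (A : Type) [CommRing A] [IsDomain A] [IsDiscreteValuationRing A]
    (K : Type) [Field K] [Algebra A K] [IsFractionRing A K] (k : ℤ)
    (h6 : IsUnit ((6 * k : ℤ) : A)) :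
    WeierstrassCurve.HasGoodReduction A ((W k K).minimal A) := by
  obtain ⟨T, hT, hTm⟩ : ∃ T : WeierstrassCurve.VariableChange K,
      (W k K).minimal A = T • W k K ∧ WeierstrassCurve.IsMinimal A (T • W k K) :=
    ⟨_, rfl, ((W k K).exists_isMinimal A).choose_spec⟩
  obtain ⟨hΔ, hu⟩ := p2_good A K k h6 T hTm
  exact ⟨by rw [hT]; exact hΔ⟩

/-- The primes which divide `6 r m` are a bad set. -/
theorem isBadSet3 {r : ℕ} (hr : Adm r) (m : ℕ) [NeZero m] (M : Type) [Field M] [NumberField M]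
    [IsCyclotomicExtension {m} ℚ M] (F : IntermediateField ℚ M) :
    WR.IsBadSet (W (-(r : ℤ) ^ 2) F) (6 * r * m).primeFactors := by
  have hne : 6 * r * m ≠ 0 := mul_ne_zero (mul_ne_zero (by norm_num) hr.ne_zero) (NeZero.ne m)
  refine ⟨fun p hp => Nat.prime_of_mem_primeFactors hp, ?_⟩
  intro p hp hpS v hv
  have hpd : ¬ p ∣ 6 * r * m := fun h => hpS (Nat.mem_primeFactors.2 ⟨hp, h, hne⟩)
  have hv' : (p : 𝓞 F) ∈ v.asIdeal := hv
  refine ⟨unram_of m M F p hp (fun h => hpd (h.mul_left _)) v hv', ?_⟩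
  rw [p5_baseChange]
  apply good_of_unit
  apply z7_cop F v p hp hv'
  intro h
  have hpi : Prime (p : ℤ) := Nat.prime_iff_prime_int.1 hp
  have h1 : (p : ℤ) ∣ 6 * r := by
    have h2 : (6 * (-(r : ℤ) ^ 2)) = -(6 * r * r) := by ring
    rw [h2, dvd_neg] at h
    rcases hpi.dvd_or_dvd h with h3 | h3
    · exact h3
    · exact h3.mul_left _
  have h2 : p ∣ 6 * r := by exact_mod_cast h1
  exact hpd (h2.mul_right _)

theorem main_res3 {r : ℕ} (hr : Adm r) (m : ℕ) [NeZero m] (hm : Good m)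
    (hrm : ∀ p, p.Prime → p ∣ r → ¬ p ∣ m) (M : Type) [Field M] [NumberField M]
    [IsCyclotomicExtension {m} ℚ M] (F : IntermediateField ℚ M) (n : ℕ)
    (h : Module.finrank ℚ F = 3 ^ (n + 1)) (S : Finset ℕ)
    (hS : WR.IsBadSet (W (-(r : ℤ) ^ 2) F) S) :
    WeilRes.PartFormula (W (-(r : ℤ) ^ 2) F) 3 S := by
  obtain ⟨-, hfin, L, hL, -, hL3, hsha, q, hq, hql, hq1⟩ := main3 hr m hm hrm M F n h
  exact WeilRes.partFormula_of _ 3 S hS hfin L hL hL3 hsha q hq hql hq1

end SB3
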