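import Mathlib

/-!
# Infinitely many cyclotomic fields of prime level with subfields of degree `3 ^ n`
-/

set_option autoImplicit false

namespace SB3

/-- A subfield of given degree of `ℚ(ζ_p)`. -/
theorem exists_subfield (p : ℕ) (hp : p.Prime) (d : ℕ) (hd : d ∣ p - 1) (M : Type) [Field M]
    [NumberField M] [IsCyclotomicExtension {p} ℚ M] :
    ∃ F : IntermediateField ℚ M, Module.finrank ℚ F = d := by
  have : NeZero p := ⟨hp.ne_zero⟩
  have hfact : Fact p.Prime := ⟨hp⟩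
  have hgal : IsGalois ℚ M := IsCyclotomicExtension.isGalois {p} ℚ M
  let e := IsCyclotomicExtension.Rat.galEquivZMod p M
  have hcyc : IsCyclic Gal(M/ℚ) := isCyclic_of_surjective e.symm.toMonoidHom e.symm.surjective
  have hcard : Nat.card Gal(M/ℚ) = p - 1 := by
    rw [Nat.card_congr e.toEquiv, Nat.card_eq_fintype_card, ZMod.card_units_eq_totient,
      Nat.totient_prime hp]
  have hp1 : 0 < p - 1 := by have := hp.two_le; omega
  obtain ⟨k, hk⟩ := hd
  have hk0 : 0 < k := Nat.pos_of_ne_zero (by rintro rfl; simp at hk; omega)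
  have hd0 : 0 < d := Nat.pos_of_ne_zero (by rintro rfl; simp at hk; omega)
  obtain ⟨g, hg⟩ := hcyc.exists_generator
  have hog : orderOf g = p - 1 := by
    rw [orderOf_eq_card_of_forall_mem_zpowers hg, hcard]
  let H : Subgroup Gal(M/ℚ) := Subgroup.zpowers (g ^ d)
  have hH : Nat.card H = k := by
    rw [Nat.card_zpowers, orderOf_pow' g hd0.ne', hog, hk, Nat.gcd_mul_right_left,
      Nat.mul_div_cancel_left _ hd0]
  refine ⟨IntermediateField.fixedField H, ?_⟩
  have h1 : Module.finrank (IntermediateField.fixedField H) M = k := by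
    rw [IntermediateField.finrank_fixedField_eq_card, hH]
  have h2 := Module.finrank_mul_finrank ℚ (IntermediateField.fixedField H) M
  have h3 : Module.finrank ℚ M = d * k := by
    rw [← IsGalois.card_aut_eq_finrank, hcard, hk]
  rw [h1, h3] at h2
  exact Nat.eq_of_mul_eq_mul_right hk0 h2

theorem infinite_fields (n : ℕ) :
    {p : ℕ | p.Prime ∧ p % 12 = 7 ∧ ∃ F : IntermediateField ℚ (CyclotomicField p ℚ),
      Module.finrank ℚ F = 3 ^ n}.Infinite := by
  have hcop : Nat.Coprime (1 + 2 * 3 ^ (n + 1)) (4 * 3 ^ (n + 1)) := by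
    have h1 : Nat.Coprime (1 + 2 * 3 ^ (n + 1)) 4 := by
      have : Odd (1 + 2 * 3 ^ (n + 1)) := ⟨3 ^ (n + 1), by ring⟩
      exact Nat.Coprime.pow_right 2 this.coprime_two_right
    have h2 : Nat.Coprime (1 + 2 * 3 ^ (n + 1)) (3 ^ (n + 1)) := by
      refine Nat.Coprime.pow_right _ ?_
      rw [Nat.coprime_comm, Nat.Prime.coprime_iff_not_dvd Nat.prime_three]
      intro h
      have h1 : 3 ∣ 2 * 3 ^ (n + 1) := Dvd.dvd.mul_left (dvd_pow_self 3 (Nat.succ_ne_zero n)) 2
      have h2 : 3 ∣ 1 := (Nat.dvd_add_left h1).1 h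
      norm_num at h2
    exact Nat.Coprime.mul_right h1 h2
  have h1 : {p : ℕ | p.Prime ∧ p ≡ 1 + 2 * 3 ^ (n + 1) [MOD 4 * 3 ^ (n + 1)]}.Infinite :=
    Nat.infinite_setOfPred_prime_and_modEq (by positivity) hcop
  refine h1.mono ?_
  rintro p ⟨hp, hmod⟩
  have h3 : p ≡ 1 [MOD 3 ^ (n + 1)] := by
    have := Nat.ModEq.of_mul_left 4 hmod
    refine this.trans ?_
    unfold Nat.ModEq
    simp
  have h4 : p ≡ 3 [MOD 4] := by
    have h5 := Nat.ModEq.of_mul_right (3 ^ (n + 1)) hmod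
    refine h5.trans ?_
    have hodd : Odd (3 ^ (n + 1)) := Odd.pow (by decide)
    obtain ⟨t, ht⟩ := hodd
    rw [ht]
    unfold Nat.ModEq
    omega
  have h5 : 3 ^ (n + 1) ∣ p - 1 := (Nat.modEq_iff_dvd' hp.one_lt.le).1 h3.symm
  have hpz : NeZero p := ⟨hp.ne_zero⟩
  have hcyc : IsCyclotomicExtension {p} ℚ (CyclotomicField p ℚ) :=
    CyclotomicField.isCyclotomicExtension p ℚ
  refine ⟨hp, ?_, exists_subfield p hp _ ((pow_dvd_pow 3 (Nat.le_succ n)).trans h5) _⟩
  have h6 : 3 ∣ p - 1 := (dvd_pow_self 3 (Nat.succ_ne_zero n)).trans h5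
  have h7 : p % 4 = 3 := h4
  have h8 := hp.one_lt
  omega

end SB3
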