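import Pool.Agent.MP_9ab903_nt.Defs
import Pool.Agent.MP_ae0bd0_nt.CM.C4
import Pool.Agent.MP_ae0bd0_nt.CM.D1

/-!
# [SB] Tamagawa numbers and Néron factors of `y² + y = x³`
-/

set_option autoImplicit false

open Polynomial NumberField IsDedekindDomain CM27
open scoped Classical

namespace SBSD

/-- If all points have nonsingular reduction then the Tamagawa number is 1. -/
theorem tamagawa_eq_one (A : Type) [CommRing A] [IsDomain A] [IsDiscreteValuationRing A]
    {K : Type} [Field K] [Algebra A K] [IsFractionRing A K] (W : WeierstrassCurve K)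
    (h : ∀ P : (W.minimal A).toAffine.Point, NonsingularReduction A (W.minimal A) P) :
    tamagawa A W = 1 := by
  have h1 : {P : (W.minimal A).toAffine.Point | NonsingularReduction A (W.minimal A) P} =
      Set.univ := Set.eq_univ_of_forall h
  unfold tamagawa
  rw [h1, AddSubgroup.closure_univ, AddSubgroup.index_top]

/-- The key computation: if `3` is prime, a solution of
`z² = 4 X³ + 1` never satisfies `3 ∣ z`. -/
theorem no_singular (A : Type) [CommRing A] [IsDomain A] (h3 : Prime (3 : A)) (X z : A)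
    (h : z ^ 2 = 4 * X ^ 3 + 1) : ¬ (3 : A) ∣ z := by
  rintro ⟨c, hc⟩
  have h1 : 4 * X ^ 3 + 1 = 9 * c ^ 2 := by
    rw [← h, hc]; ring
  have h2 : (3 : A) ∣ (X + 1) ^ 3 := by
    have h4 : (3 : A) ∣ 4 * (X + 1) ^ 3 :=
      ⟨3 * c ^ 2 + 4 * X ^ 2 + 4 * X + 1, by linear_combination h1⟩
    have h5 : (X + 1) ^ 3 = 4 * (X + 1) ^ 3 - 3 * (X + 1) ^ 3 := by ring
    rw [h5]
    exact dvd_sub h4 ⟨(X + 1) ^ 3, rfl⟩
  obtain ⟨d, hd⟩ := h3.dvd_of_dvd_pow h2
  have h6 : X = 3 * d - 1 := by linear_combination hd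
  have h7 : (3 : A) * (3 * (12 * d ^ 3 - 12 * d ^ 2 + 4 * d - c ^ 2) - 1) = 0 := by
    rw [h6] at h1
    linear_combination h1
  have h8 : (3 : A) * (12 * d ^ 3 - 12 * d ^ 2 + 4 * d - c ^ 2) - 1 = 0 :=
    (mul_eq_zero.1 h7).resolve_left h3.ne_zero
  have h9 : (3 : A) ∣ 1 := ⟨12 * d ^ 3 - 12 * d ^ 2 + 4 * d - c ^ 2, by linear_combination -h8⟩
  exact h3.not_isUnit (isUnit_of_dvd_one h9)

/-- A sufficient criterion for nonsingular reduction. -/
theorem nonsingular_of_tangent (A : Type) [CommRing A] [IsDomain A] [IsDiscreteValuationRing A]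
    {K : Type} [Field K] [Algebra A K] [IsFractionRing A K] (W : WeierstrassCurve K)
    [W.IsMinimal A]
    (h : ∀ a b : A, W.toAffine.Equation (algebraMap A K a) (algebraMap A K b) →
      IsLocalRing.residue A (2 * b + (W.integralModel A).a₁ * a + (W.integralModel A).a₃) ≠ 0)
    (P : W.toAffine.Point) : NonsingularReduction A W P := by
  rcases P with _ | ⟨x, y, hxy⟩
  · trivial
  · intro a b ha hb
    subst ha hb
    have hinj : Function.Injective (algebraMap A K) := IsFractionRing.injective A K
    have h1 := hxy.1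
    have h2 : (W.integralModel A).toAffine.Equation a b := by
      have h3 : ((W.integralModel A).map (algebraMap A K)).toAffine.Equation
          (algebraMap A K a) (algebraMap A K b) := by
        have h4 : (W.integralModel A).map (algebraMap A K) = W :=
          WeierstrassCurve.baseChange_integralModel_eq A W
        rw [h4]; exact h1
      exact (WeierstrassCurve.Affine.map_equation _ hinj a b).1 h3
    have h5 : (W.reduction A).toAffine.Equation (IsLocalRing.residue A a)
        (IsLocalRing.residue A b) := by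
      have := WeierstrassCurve.Affine.Equation.map (IsLocalRing.residue A) h2
      exact this
    refine (WeierstrassCurve.Affine.nonsingular_iff _ _).2 ⟨h5, Or.inr ?_⟩
    intro h6
    apply h a b h1
    have h7 : (W.reduction A).toAffine.a₁ = IsLocalRing.residue A (W.integralModel A).a₁ := rfl
    have h8 : (W.reduction A).toAffine.a₃ = IsLocalRing.residue A (W.integralModel A).a₃ := rfl
    rw [h7, h8] at h6
    simp only [map_add, map_mul, map_ofNat]
    linear_combination h6

/-- A minimal equation with good reduction: all points have nonsingular reduction. -/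
theorem nonsingular_of_good (A : Type) [CommRing A] [IsDomain A] [IsDiscreteValuationRing A]
    {K : Type} [Field K] [Algebra A K] [IsFractionRing A K] (W : WeierstrassCurve K)
    [W.IsMinimal A] (hW : W.HasGoodReduction A)
    (P : W.toAffine.Point) : NonsingularReduction A W P := by
  rcases P with _ | ⟨x, y, hxy⟩
  · trivial
  · intro a b ha hb
    subst ha hb
    have hinj : Function.Injective (algebraMap A K) := IsFractionRing.injective A K
    have h2 : (W.integralModel A).toAffine.Equation a b := by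
      have h3 : ((W.integralModel A).map (algebraMap A K)).toAffine.Equation
          (algebraMap A K a) (algebraMap A K b) := by
        have h4 : (W.integralModel A).map (algebraMap A K) = W :=
          WeierstrassCurve.baseChange_integralModel_eq A W
        rw [h4]; exact hxy.1
      exact (WeierstrassCurve.Affine.map_equation _ hinj a b).1 h3
    have h5 : (W.reduction A).toAffine.Equation (IsLocalRing.residue A a)
        (IsLocalRing.residue A b) := by
      have := WeierstrassCurve.Affine.Equation.map (IsLocalRing.residue A) h2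
      exact this
    have h6 : (W.reduction A).IsElliptic :=
      (WeierstrassCurve.hasGoodReduction_iff_isElliptic_reduction A).1 hW
    exact (WeierstrassCurve.Affine.equation_iff_nonsingular_of_Δ_ne_zero
      (W := (W.reduction A).toAffine) (h6.isUnit.ne_zero)).1 h5

/-- The minimal equation of `y² + y = x³` when `3` is a uniformizer: the `u` of the change of
variables is a unit. -/
theorem three_unit (A : Type) [CommRing A] [IsDomain A] [IsDiscreteValuationRing A]
    (K : Type) [Field K] [Algebra A K] [IsFractionRing A K] (h3 : Irreducible (3 : A))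
    (T : WeierstrassCurve.VariableChange K) (hT : WeierstrassCurve.IsMinimal A (T • E K)) :
    (IsDiscreteValuationRing.maximalIdeal A).valuation K (T.u : K) = 1 := by
  have hE : WeierstrassCurve.IsIntegral A (E K) :=
    ⟨⟨E A, (c1_map (algebraMap A K)).symm⟩⟩
  have hm : (IsDiscreteValuationRing.maximalIdeal A).asIdeal = Ideal.span {(3 : A)} :=
    (IsDiscreteValuationRing.irreducible_iff_uniformizer (3 : A)).1 h3
  have hv3 : (IsDiscreteValuationRing.maximalIdeal A).valuation K (3 : K)
      = WithZero.exp (-1 : ℤ) := by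
    have h4 := HeightOneSpectrum.valuation_of_algebraMap
      (K := K) (IsDiscreteValuationRing.maximalIdeal A) (3 : A)
    rw [HeightOneSpectrum.intValuation_singleton _ h3.ne_zero hm] at h4
    have h5 : ((algebraMap A K) (3 : A)) = 3 := map_ofNat _ 3
    rw [← h5]
    exact h4
  have h27 : (IsDiscreteValuationRing.maximalIdeal A).valuation K (E K).Δ =
      WithZero.exp (-1 : ℤ) ^ 3 := by
    have h1 : (E K).Δ = -(3 ^ 3) := by rw [c1_Δ]; norm_num
    rw [h1, Valuation.map_neg, map_pow, hv3]
  have h1 := hT.val_Δ_maximal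
  have hinv : T⁻¹ • (T • E K) = E K := inv_smul_smul T (E K)
  have h2 := h1.2 (j := T⁻¹)
    (by show WeierstrassCurve.IsIntegral A (T⁻¹ • (T • E K)); rw [hinv]; exact hE)
  have hle : ((WeierstrassCurve.valuation_Δ_aux A ((1 : WeierstrassCurve.VariableChange K) •
      (T • E K)) : { v : WithZero (Multiplicative ℤ) // v ≤ 1 }) : WithZero (Multiplicative ℤ)) =
      (IsDiscreteValuationRing.maximalIdeal A).valuation K (T • E K).Δ := by
    rw [one_smul]
    exact WeierstrassCurve.valuation_Δ_aux_eq_of_isIntegral A _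
  have hinvv : ((WeierstrassCurve.valuation_Δ_aux A (T⁻¹ • (T • E K)) :
      { v : WithZero (Multiplicative ℤ) // v ≤ 1 }) : WithZero (Multiplicative ℤ)) =
      WithZero.exp (-1 : ℤ) ^ 3 := by
    rw [hinv, WeierstrassCurve.valuation_Δ_aux_eq_of_isIntegral A _, h27]
  have hle1 : (IsDiscreteValuationRing.maximalIdeal A).valuation K (T • E K).Δ ≤ 1 := by
    rw [← hle]
    exact (WeierstrassCurve.valuation_Δ_aux A ((1 : WeierstrassCurve.VariableChange K) •
      (T • E K))).2
  have hge : WithZero.exp (-1 : ℤ) ^ 3 ≤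
      (IsDiscreteValuationRing.maximalIdeal A).valuation K (T • E K).Δ := by
    by_contra hlt
    push Not at hlt
    have h4 : (WeierstrassCurve.valuation_Δ_aux A ((1 : WeierstrassCurve.VariableChange K) •
        (T • E K))) ≤ (WeierstrassCurve.valuation_Δ_aux A (T⁻¹ • (T • E K))) := by
      rw [← Subtype.coe_le_coe, hinvv, hle]
      exact hlt.le
    have h5 := h2 h4
    rw [← Subtype.coe_le_coe, hle] at h5
    have h6 := h5
    rw [show ((WeierstrassCurve.valuation_Δ_aux A (T⁻¹ • (T • E K)) :
      { v : WithZero (Multiplicative ℤ) // v ≤ 1 }) : WithZero (Multiplicative ℤ)) =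
      WithZero.exp (-1 : ℤ) ^ 3 from hinvv] at h6
    exact absurd h6 (not_le.2 hlt)
  have hu : (IsDiscreteValuationRing.maximalIdeal A).valuation K ((T.u⁻¹ : Kˣ) : K) ≠ 0 := by
    rw [Valuation.ne_zero_iff]
    exact Units.ne_zero _
  have hval : (IsDiscreteValuationRing.maximalIdeal A).valuation K (T • E K).Δ =
      (IsDiscreteValuationRing.maximalIdeal A).valuation K ((T.u⁻¹ : Kˣ) : K) ^ 12 *
        WithZero.exp (-1 : ℤ) ^ 3 := by
    rw [WeierstrassCurve.variableChange_Δ, map_mul, h27, map_pow]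
  have hne : WithZero.exp (-1 : ℤ) ^ 3 ≠ (0 : WithZero (Multiplicative ℤ)) :=
    pow_ne_zero _ (by simp)
  rw [hval] at hle1 hge
  have h7 := (WithZero.log_le_log (mul_ne_zero (pow_ne_zero _ hu) hne) one_ne_zero).2 hle1
  have h8 := (WithZero.log_le_log hne (mul_ne_zero (pow_ne_zero _ hu) hne)).2 hge
  rw [WithZero.log_mul (pow_ne_zero _ hu) hne, WithZero.log_pow, WithZero.log_pow,
    WithZero.log_exp] at h7 h8
  rw [WithZero.log_one] at h7
  simp only [nsmul_eq_mul, Nat.cast_ofNat] at h7 h8
  have h9 : WithZero.log ((IsDiscreteValuationRing.maximalIdeal A).valuation K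
      ((T.u⁻¹ : Kˣ) : K)) = 0 := by omega
  have h10 : (IsDiscreteValuationRing.maximalIdeal A).valuation K ((T.u⁻¹ : Kˣ) : K) = 1 := by
    rw [← WithZero.exp_log hu, h9, WithZero.exp_zero]
  rw [Units.val_inv_eq_inv_val, map_inv₀] at h10
  exact inv_eq_one.1 h10

/-- The points of the minimal equation of `y² + y = x³` when `3` is a uniformizer. -/
theorem three_nonsingular (A : Type) [CommRing A] [IsDomain A] [IsDiscreteValuationRing A]
    (K : Type) [Field K] [Algebra A K] [IsFractionRing A K] (h3 : Irreducible (3 : A))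
    (T : WeierstrassCurve.VariableChange K) (W : WeierstrassCurve K) [W.IsMinimal A]
    (hW : W = T • E K)
    (hu : (IsDiscreteValuationRing.maximalIdeal A).valuation K (T.u : K) = 1)
    (P : W.toAffine.Point) : NonsingularReduction A W P := by
  have hinj : Function.Injective (algebraMap A K) := IsFractionRing.injective A K
  have hp3 : Prime (3 : A) := h3.prime
  set I := W.integralModel A with hI0
  have hI : T • E K = I.map (algebraMap A K) := by
    rw [← hW]
    exact (WeierstrassCurve.baseChange_integralModel_eq A W).symm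
  have hmem : (T.u : K) ∈ MonoidHom.mker ((IsDiscreteValuationRing.maximalIdeal A).valuation K) :=
    hu
  rw [IsDiscreteValuationRing.mker_valuation_eq_isUnitSubmonoid] at hmem
  obtain ⟨u₀, hu₀, hu₁⟩ := hmem
  have hu₀' : IsUnit u₀ := hu₀
  obtain ⟨u, rfl⟩ := hu₀'
  have hu1 : (T.u : K) = algebraMap A K u := hu₁.symm
  have huu : algebraMap A K (u : A) * algebraMap A K ((u⁻¹ : Aˣ) : A) = 1 := by
    rw [← map_mul]; simp
  have huinv : ((T.u⁻¹ : Kˣ) : K) = algebraMap A K ((u⁻¹ : Aˣ) : A) := by
    rw [Units.val_inv_eq_inv_val, hu1]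
    exact inv_eq_of_mul_eq_one_right huu
  -- the `b`'s
  have hb8 : 3 * T.r + 3 * T.r ^ 4 = algebraMap A K ((u : A) ^ 8 * I.b₈) := by
    have h : (T • E K).b₈ = algebraMap A K I.b₈ := by rw [hI]; simp
    rw [map_mul, map_pow, ← h, WeierstrassCurve.variableChange_b₈, huinv]
    have h8 : algebraMap A K (u : A) ^ 8 * algebraMap A K ((u⁻¹ : Aˣ) : A) ^ 8 = 1 := by
      rw [← mul_pow, huu, one_pow]
    simp only [E, WeierstrassCurve.b₂, WeierstrassCurve.b₄, WeierstrassCurve.b₆,
      WeierstrassCurve.b₈]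
    linear_combination (-(3 * T.r + 3 * T.r ^ 4)) * h8
  have hb2 : 12 * T.r = algebraMap A K ((u : A) ^ 2 * I.b₂) := by
    have h : (T • E K).b₂ = algebraMap A K I.b₂ := by rw [hI]; simp
    rw [map_mul, map_pow, ← h, WeierstrassCurve.variableChange_b₂, huinv]
    have h8 : algebraMap A K (u : A) ^ 2 * algebraMap A K ((u⁻¹ : Aˣ) : A) ^ 2 = 1 := by
      rw [← mul_pow, huu, one_pow]
    simp only [E, WeierstrassCurve.b₂]
    linear_combination (-(12 * T.r)) * h8
  have hb4 : 6 * T.r ^ 2 = algebraMap A K ((u : A) ^ 4 * I.b₄) := by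
    have h : (T • E K).b₄ = algebraMap A K I.b₄ := by rw [hI]; simp
    rw [map_mul, map_pow, ← h, WeierstrassCurve.variableChange_b₄, huinv]
    have h8 : algebraMap A K (u : A) ^ 4 * algebraMap A K ((u⁻¹ : Aˣ) : A) ^ 4 = 1 := by
      rw [← mul_pow, huu, one_pow]
    simp only [E, WeierstrassCurve.b₂, WeierstrassCurve.b₄]
    linear_combination (-(6 * T.r ^ 2)) * h8
  have hb6 : 1 + 4 * T.r ^ 3 = algebraMap A K ((u : A) ^ 6 * I.b₆) := by
    have h : (T • E K).b₆ = algebraMap A K I.b₆ := by rw [hI]; simp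
    rw [map_mul, map_pow, ← h, WeierstrassCurve.variableChange_b₆, huinv]
    have h8 : algebraMap A K (u : A) ^ 6 * algebraMap A K ((u⁻¹ : Aˣ) : A) ^ 6 = 1 := by
      rw [← mul_pow, huu, one_pow]
    simp only [E, WeierstrassCurve.b₂, WeierstrassCurve.b₄, WeierstrassCurve.b₆]
    linear_combination (-(1 + 4 * T.r ^ 3)) * h8
  -- `r` is integral
  obtain ⟨ρ, hρ⟩ : ∃ ρ : A, algebraMap A K ρ = 3 * T.r := by
    refine c1_root A K (X ^ 4 + C 27 * X - C (27 * ((u : A) ^ 8 * I.b₈))) ?_ _ ?_
    · monicity!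
    · rw [eval₂_sub, eval₂_add, eval₂_pow, eval₂_mul, eval₂_X, eval₂_C, eval₂_C]
      rw [map_mul, ← hb8]
      simp only [map_ofNat]
      ring
  have hρ3 : (3 : A) ∣ ρ ^ 4 := by
    refine ⟨9 * ((u : A) ^ 8 * I.b₈) * 1 - 9 * ρ, hinj ?_⟩
    simp only [map_mul, map_sub, map_pow, map_one, map_ofNat, hρ]
    have h := hb8
    simp only [map_mul, map_pow] at h
    linear_combination (27 : K) * h
  obtain ⟨r, hr⟩ := hp3.dvd_of_dvd_pow hρ3
  have h3K : (3 : K) ≠ 0 := by
    intro h0
    apply hp3.ne_zero
    apply hinj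
    rw [map_ofNat, map_zero, h0]
  have hr' : algebraMap A K r = T.r := by
    have h := hρ
    rw [hr, map_mul, map_ofNat] at h
    exact mul_left_cancel₀ h3K h
  -- the equations in `A`
  have kb2 : (u : A) ^ 2 * I.b₂ = 12 * r := hinj (by
    rw [← hb2]; simp only [map_mul, map_ofNat, hr'])
  have kb4 : (u : A) ^ 4 * I.b₄ = 6 * r ^ 2 := hinj (by
    rw [← hb4]; simp only [map_mul, map_pow, map_ofNat, hr'])
  have kb6 : (u : A) ^ 6 * I.b₆ = 1 + 4 * r ^ 3 := hinj (by
    rw [← hb6]; simp only [map_mul, map_add, map_one, map_pow, map_ofNat, hr'])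
  refine nonsingular_of_tangent A W ?_ P
  intro a b hab
  rw [Ne, IsLocalRing.residue_eq_zero_iff]
  intro hz
  have hmax : IsLocalRing.maximalIdeal A = Ideal.span {(3 : A)} :=
    (IsDiscreteValuationRing.irreducible_iff_uniformizer (3 : A)).1 h3
  rw [hmax, Ideal.mem_span_singleton] at hz
  have hab' : I.toAffine.Equation a b := by
    have h5 : (I.map (algebraMap A K)).toAffine.Equation
        (algebraMap A K a) (algebraMap A K b) := by
      rw [← hI, ← hW]; exact hab
    exact (WeierstrassCurve.Affine.map_equation _ hinj a b).1 h5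
  have heq := (WeierstrassCurve.Affine.equation_iff _ _).1 hab'
  refine no_singular A hp3 ((u : A) ^ 2 * a + r)
    ((u : A) ^ 3 * (2 * b + I.a₁ * a + I.a₃)) ?_ (hz.mul_left _)
  have hsq : (2 * b + I.a₁ * a + I.a₃) ^ 2 = 4 * a ^ 3 + I.b₂ * a ^ 2 + 2 * I.b₄ * a + I.b₆ := by
    simp only [WeierstrassCurve.b₂, WeierstrassCurve.b₄, WeierstrassCurve.b₆]
    linear_combination 4 * heq
  calc ((u : A) ^ 3 * (2 * b + I.a₁ * a + I.a₃)) ^ 2
      = (u : A) ^ 6 * (2 * b + I.a₁ * a + I.a₃) ^ 2 := by ring
    _ = (u : A) ^ 6 * (4 * a ^ 3 + I.b₂ * a ^ 2 + 2 * I.b₄ * a + I.b₆) := by rw [hsq]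
    _ = 4 * ((u : A) ^ 2 * a + r) ^ 3 + 1 := by
      linear_combination (u : A) ^ 4 * a ^ 2 * kb2 + 2 * (u : A) ^ 2 * a * kb4 + kb6

/-- The Tamagawa number of `y² + y = x³` is 1 when `3` is a unit. -/
theorem tamagawa_good (A : Type) [CommRing A] [IsDomain A] [IsDiscreteValuationRing A]
    (K : Type) [Field K] [Algebra A K] [IsFractionRing A K] (h3 : IsUnit (3 : A)) :
    tamagawa A (E K) = 1 := by
  obtain ⟨T, hT, hTm⟩ : ∃ T : WeierstrassCurve.VariableChange K,
      (E K).minimal A = T • E K ∧ WeierstrassCurve.IsMinimal A (T • E K) :=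
    ⟨_, rfl, ((E K).exists_isMinimal A).choose_spec⟩
  obtain ⟨hΔ, -⟩ := c1_good A K h3 T hTm
  have hgood : WeierstrassCurve.HasGoodReduction A ((E K).minimal A) :=
    ⟨by rw [hT]; exact hΔ⟩
  exact tamagawa_eq_one A (E K) (nonsingular_of_good A _ hgood)

/-- The Tamagawa number of `y² + y = x³` is 1 when `3` is a uniformizer. -/
theorem tamagawa_three (A : Type) [CommRing A] [IsDomain A] [IsDiscreteValuationRing A]
    (K : Type) [Field K] [Algebra A K] [IsFractionRing A K] (h3 : Irreducible (3 : A)) :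
    tamagawa A (E K) = 1 := by
  obtain ⟨T, hT, hTm⟩ : ∃ T : WeierstrassCurve.VariableChange K,
      (E K).minimal A = T • E K ∧ WeierstrassCurve.IsMinimal A (T • E K) :=
    ⟨_, rfl, ((E K).exists_isMinimal A).choose_spec⟩
  exact tamagawa_eq_one A (E K)
    (three_nonsingular A K h3 T _ hT (three_unit A K h3 T hTm))

/-- In the number field case: all Tamagawa numbers of `y² + y = x³` are 1 if `3` is unramified. -/
theorem tam_eq_one (K : Type) [Field K] [NumberField K] (v : HeightOneSpectrum (𝓞 K))
    (h9 : (3 : 𝓞 K) ∈ v.asIdeal → (3 : 𝓞 K) ∉ v.asIdeal ^ 2) : tam (E K) v = 1 := by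
  unfold tam
  rw [c4_baseChange]
  by_cases h3 : (3 : 𝓞 K) ∈ v.asIdeal
  · refine tamagawa_three _ _ ?_
    have := irreducible_completion K v 3 (by exact_mod_cast h3) (by exact_mod_cast h9 h3)
    exact_mod_cast this
  · refine tamagawa_good _ _ ?_
    have := isUnit_completion K v 3 (by exact_mod_cast h3)
    exact_mod_cast this

/-- In the number field case: all Néron factors of `y² + y = x³` are 1 if `3` is unramified. -/
theorem neron_eq_one (K : Type) [Field K] [NumberField K] (v : HeightOneSpectrum (𝓞 K))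
    (h9 : (3 : 𝓞 K) ∈ v.asIdeal → (3 : 𝓞 K) ∉ v.asIdeal ^ 2) : neron (E K) v = 1 := by
  have hu : (IsDiscreteValuationRing.maximalIdeal (v.adicCompletionIntegers K)).valuation
      (v.adicCompletion K) (((((E K).baseChange (v.adicCompletion K)).exists_isMinimal
        (v.adicCompletionIntegers K)).choose.u : (v.adicCompletion K)ˣ) : v.adicCompletion K)
        = 1 := by
    have hmin := (((E K).baseChange (v.adicCompletion K)).exists_isMinimal
        (v.adicCompletionIntegers K)).choose_spec
    generalize (((E K).baseChange (v.adicCompletion K)).exists_isMinimal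
        (v.adicCompletionIntegers K)).choose = T at hmin ⊢
    rw [c4_baseChange] at hmin
    by_cases h3 : (3 : 𝓞 K) ∈ v.asIdeal
    · refine three_unit _ _ ?_ T hmin
      have := irreducible_completion K v 3 (by exact_mod_cast h3) (by exact_mod_cast h9 h3)
      exact_mod_cast this
    · refine (c1_good _ _ ?_ T hmin).2
      have := isUnit_completion K v 3 (by exact_mod_cast h3)
      exact_mod_cast this
  unfold neron
  generalize (((((E K).baseChange (v.adicCompletion K)).exists_isMinimal
        (v.adicCompletionIntegers K)).choose.u : (v.adicCompletion K)ˣ) : v.adicCompletion K) = u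
        at hu ⊢
  have hmem : u ∈ MonoidHom.mker ((IsDiscreteValuationRing.maximalIdeal
      (v.adicCompletionIntegers K)).valuation (v.adicCompletion K)) := hu
  rw [IsDiscreteValuationRing.mker_valuation_eq_isUnitSubmonoid] at hmem
  obtain ⟨u₀, hu₀, rfl⟩ := hmem
  have hu₀' : IsUnit u₀ := hu₀
  rw [HeightOneSpectrum.adicCompletionIntegers.isUnit_iff_valued_eq_one] at hu₀'
  rw [inv_eq_one]
  have h1 : algebraMap (v.adicCompletionIntegers K) (v.adicCompletion K) u₀ =
      (u₀ : v.adicCompletion K) := rfl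
  rw [h1, FinitePlace.norm_def, hu₀', map_one]
  rfl

theorem finprod_tam (K : Type) [Field K] [NumberField K]
    (h9 : ∀ v : HeightOneSpectrum (𝓞 K), (3 : 𝓞 K) ∈ v.asIdeal → (3 : 𝓞 K) ∉ v.asIdeal ^ 2) :
    ∏ᶠ v : HeightOneSpectrum (𝓞 K), tam (E K) v = 1 := by
  simp only [tam_eq_one K _ (h9 _), finprod_one]

theorem finprod_neron (K : Type) [Field K] [NumberField K]
    (h9 : ∀ v : HeightOneSpectrum (𝓞 K), (3 : 𝓞 K) ∈ v.asIdeal → (3 : 𝓞 K) ∉ v.asIdeal ^ 2) :
    ∏ᶠ v : HeightOneSpectrum (𝓞 K), neron (E K) v = 1 := by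
  simp only [neron_eq_one K _ (h9 _), finprod_one]

/-- `3` is unramified in the fields of the family. -/
theorem three_unram (m : ℕ) [NeZero m] (hm : GoodLevel m) (M : Type) [Field M] [NumberField M]
    [IsCyclotomicExtension {m} ℚ M] (F : IntermediateField ℚ M) (v : HeightOneSpectrum (𝓞 F))
    (h3 : (3 : 𝓞 F) ∈ v.asIdeal) : (3 : 𝓞 F) ∉ v.asIdeal ^ 2 := by
  have h := unram m M F 3 Nat.prime_three (fun h3m => by
    have h1 := (hm.2 3 Nat.prime_three h3m).2.1
    omega) v (by exact_mod_cast h3)
  exact_mod_cast h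

/-- The archimedean factors. -/
theorem archPeriod_eq (K : Type) [Field K] [NumberField K] (v : InfinitePlace K) :
    archPeriod (E K) v = if v.IsReal then
      ∫ t in {t : ℝ | 0 < 4 * t ^ 3 + 1}, 2 / √(4 * t ^ 3 + 1)
      else 2 * (2 * ∫ t : ℂ, 1 / ‖4 * t ^ 3 + 1‖) := by
  have hc : ∀ (R : Type) [CommRing R] (x : R), cubic (E R) x = 4 * x ^ 3 + 1 := by
    intro R _ x
    simp only [cubic, E, WeierstrassCurve.b₂, WeierstrassCurve.b₄, WeierstrassCurve.b₆]
    ring
  unfold archPeriod
  split_ifs with h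
  · rw [c1_map, realPeriod]
    simp only [hc]
  · rw [c1_map, complexArea]
    simp only [hc]
    congr 1
    rw [← MeasureTheory.integral_const_mul]
    congr 1
    funext t
    ring

end SBSD
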