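import Pool.Agent.MP_9ab903_nt.FinalDefs3
import Pool.Agent.MP_9ab903_nt.A3.VAL
import Pool.Agent.MP_9ab903_nt.T3.TAM
import Pool.Agent.MP_9ab903_nt.S3.FIN

/-!
# The 3-part of the strong Birch and Swinnerton-Dyer conjecture for `y² = x³ - r²`: assembly
-/

set_option autoImplicit false

open NumberField IsDedekindDomain CM27 BS3
open scoped Classical

namespace SB3

theorem unram_bad {r : ℕ} (m : ℕ) [NeZero m] (hm : Good m)
    (hrm : ∀ p, p.Prime → p ∣ r → ¬ p ∣ m) (M : Type) [Field M] [NumberField M]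
    [IsCyclotomicExtension {m} ℚ M] (F : IntermediateField ℚ M) (p : ℕ) (hp : p.Prime)
    (hpd : p ∣ 6 * r) : Unram p F := by
  refine unram_of m M F p hp ?_
  rcases (Nat.Prime.dvd_mul hp).1 hpd with h1 | h1
  · intro h2
    have h4 := hm.2 p hp h2
    have h5 : p ∣ 2 * 3 := h1
    rcases (Nat.Prime.dvd_mul hp).1 h5 with h6 | h6
    · rw [(Nat.prime_dvd_prime_iff_eq hp Nat.prime_two).1 h6] at h4
      norm_num at h4
    · rw [(Nat.prime_dvd_prime_iff_eq hp Nat.prime_three).1 h6] at h4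
      norm_num at h4
  · exact hrm p hp h1

/-- There are no affine points. -/
theorem points_zero {r : ℕ} (hr : Adm r) (m : ℕ) [NeZero m] (hm : Good m)
    (hrm : ∀ p, p.Prime → p ∣ r → ¬ p ∣ m) (M : Type) [Field M] [NumberField M]
    [IsCyclotomicExtension {m} ℚ M] (F : IntermediateField ℚ M) (n : ℕ)
    (h : Module.finrank ℚ F = 3 ^ n) : Subsingleton (W (-(r : ℤ) ^ 2) F).toAffine.Point := by
  have h9 : ¬ 9 ∣ m := by
    intro h9
    exact hm.not_dvd Nat.prime_three (by norm_num) ((by norm_num : 3 ∣ 9).trans h9)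
  have hno := (main_r hr m h9 (fun p hp hd => by rw [hm.2 p hp hd]; norm_num)
    (fun p hp h1 h2 => absurd h1 (hrm p hp h2)) M F n h).2
  have key : ∀ P : (W (-(r : ℤ) ^ 2) F).toAffine.Point, P = 0 := by
    intro P
    rcases P with _ | ⟨x, y, hxy⟩
    · rfl
    · exfalso
      have h1 := (W_equation x y).1 hxy.1
      apply hno x y
      push_cast at h1
      linear_combination h1
  exact ⟨fun P Q => by rw [key P, key Q]⟩

theorem elliptic_W {r : ℕ} (hr : Adm r) (F : Type) [Field F] [CharZero F] :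
    (W (-(r : ℤ) ^ 2) F).IsElliptic := by
  rw [WeierstrassCurve.isElliptic_iff, isUnit_iff_ne_zero]
  have hr0 : (r : F) ≠ 0 := by
    have := hr.ne_zero
    exact_mod_cast this
  simp only [W, WeierstrassCurve.Δ, WeierstrassCurve.b₂, WeierstrassCurve.b₄,
    WeierstrassCurve.b₆, WeierstrassCurve.b₈]
  have h1 : (-432 : F) * (r : F) ^ 4 ≠ 0 :=
    mul_ne_zero (by norm_num) (pow_ne_zero 4 hr0)
  intro h0
  apply h1
  push_cast at h0
  linear_combination h0

theorem order_eq3 {K : Type} [Field K] (V : WeierstrassCurve K) [Subsingleton V.toAffine.Point]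
    {L : ℂ → ℂ} (h : analyticOrderAt L 1 = 0) :
    analyticOrderAt L 1 = Module.finrank ℤ V.toAffine.Point := by
  have h2 : Module.finrank ℤ V.toAffine.Point = 0 := Module.finrank_zero_of_subsingleton
  rw [h, h2]
  rfl

theorem card_tors3 {K : Type} [Field K] (V : WeierstrassCurve K)
    [Subsingleton V.toAffine.Point] : Nat.card (AddCommGroup.torsion V.toAffine.Point) = 1 :=
  Nat.card_of_subsingleton 0

theorem main3 {r : ℕ} (hr : Adm r) (m : ℕ) [NeZero m] (hm : Good m)
    (hrm : ∀ p, p.Prime → p ∣ r → ¬ p ∣ m) (M : Type) [Field M] [NumberField M]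
    [IsCyclotomicExtension {m} ℚ M] (F : IntermediateField ℚ M) (n : ℕ)
    (h : Module.finrank ℚ F = 3 ^ (n + 1)) : SBSD3.ThreePartRankZero (W (-(r : ℤ) ^ 2) F) := by
  have h0 : IsAbelianGalois ℚ M := IsCyclotomicExtension.isAbelianGalois {m} ℚ M
  have h0' : IsAbelianGalois ℚ F := IsAbelianGalois.tower_bot ℚ F M
  have hgal : IsGalois ℚ F := h0'.toIsGalois
  have hun : ∀ p, p.Prime → p ∣ 6 * r → Unram p F := fun p hp hd =>
    unram_bad m hm hrm M F p hp hd
  have hsub := points_zero hr m hm hrm M F (n + 1) h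
  have hodd : Odd (Module.finrank ℚ F) := by rw [h]; exact Odd.pow (by decide)
  obtain ⟨hρ0, hρ⟩ := realPeriod_W r hr.ne_zero
  obtain ⟨j, hj⟩ := finprod_tam3 hr F (n + 1) h hun
  obtain ⟨d, hd⟩ := discr_sq_of_odd F hodd
  have h3m : ¬ 3 ∣ m := hm.not_dvd Nat.prime_three (by norm_num)
  have hd3 : ¬ 3 ∣ d := by
    intro h3
    refine disc_prime_not_dvd m M F 3 Nat.prime_three h3m ?_
    have h4 : ((NumberField.discr F).natAbs : ℝ) = ((d ^ 2 : ℕ) : ℝ) := by
      push_cast
      rw [← hd, Nat.cast_natAbs]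
      push_cast
      rfl
    have h5 : (NumberField.discr F).natAbs = d ^ 2 := by exact_mod_cast h4
    rw [h5]
    exact Dvd.dvd.pow h3 two_ne_zero
  have h2j : ¬ 3 ∣ 2 ^ j := by
    intro h3
    have := Nat.Prime.dvd_of_dvd_pow Nat.prime_three h3
    norm_num at this
  obtain ⟨L, hL1, hL2, hL3, q, hq0, hq1, hq2⟩ := value_rat hr m hm hrm M F n h hun
    (SBSD.realPeriod (W (-(r : ℤ) ^ 2) ℝ)) hρ0 hρ d hd3 (2 ^ j) h2j
  refine ⟨elliptic_W hr F, inferInstance, L, ⟨hL1, hL2⟩, ?_, hL3, ?_, q, hq0, hq1, ?_⟩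
  · exact order_eq3 _ ((hL1.analyticAt 1).analyticOrderAt_eq_zero.2 hL3)
  · intro x k hx
    refine sha_three_pow m hm M F (n + 1) h (r : ℤ) (by exact_mod_cast hr.ne_zero) ?_ ?_ k x hx
    · have h9 : ((r : ℤ) % 9 = 4 ∨ (r : ℤ) % 9 = 5) := by
        have := hr.1
        omega
      rcases h9 with h9 | h9 <;> rw [pow_two, Int.mul_emod, h9] <;> norm_num
    · intro p hp hpd
      exact hr.2.2 p hp (by exact_mod_cast hpd)
  · have hs : √|(discr F : ℝ)| = d := by
      rw [hd, Real.sqrt_sq (Nat.cast_nonneg d)]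
    rw [SBSD2.bsdQuotient, card_tors3, hj, hs, period3 hr F (n + 1) h hun, ← hq2]
    push_cast
    ring

end SB3
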